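import Pool.Agent.Helper69.PP.Zero

/-!
# PP-Z, the case of finitely many close zeros: no uniform integrability is needed
-/

open MeasureTheory Set Filter Topology
open Pool.Agent.Helper57.Zeta Pool.Agent.Helper57.PC Pool.Agent.Helper57.LH Pool.Agent.Helper78.SG
open Pool.Agent.Helper4.SH
open scoped ContDiff

namespace Pool.Agent.Helper69.PP

/-- zeros of height `> H` are simple and the other zeros are more than `c` mean spacings away (mean spacing at the height of the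
zero) -/
def NoClose (c H : ℝ) : Prop :=
  ∀ ρ : ZS, H < (ρ : ℂ).im → analyticOrderNatAt xi (ρ : ℂ) < 2 ∧
    ∀ ρ' : ZS, ρ' ≠ ρ → c < |(ρ : ℂ).im - (ρ' : ℂ).im| * Real.log (ρ : ℂ).im / (2 * Real.pi)

theorem fin_CZc {c H : ℝ} (hH : NoClose c H) (T : ℝ) {ρ : ZS} (hρ : ρ ∈ CZc c T) : (ρ : ℂ).im ≤ max H 1 := by
  obtain ⟨h1, h2⟩ := mem_CZc.mp hρ
  by_contra hcc
  rw [not_le, max_lt_iff] at hcc
  obtain ⟨hH1, h11⟩ := hcc
  obtain ⟨h3, h4⟩ := hH ρ hH1
  rcases h2 with h2 | ⟨ρ', hne, h2⟩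
  · omega
  · have h5 := h4 ρ' hne
    obtain ⟨h6, h7⟩ := mem_ZT.mp h1
    have h8 : Real.log (ρ : ℂ).im ≤ Real.log T := Real.log_le_log (by linarith) h7
    have h9 : |(ρ : ℂ).im - (ρ' : ℂ).im| * Real.log (ρ : ℂ).im / (2 * Real.pi) ≤
        |(ρ : ℂ).im - (ρ' : ℂ).im| * Real.log T / (2 * Real.pi) := by
      gcongr
    linarith

/-- finitely many close zeros contribute nothing in the middle -/
theorem fin_Gsc {c H : ℝ} (hH : NoClose c H) (f : TF) {s : ℝ} (hs : 1 ≤ s) (hs2 : s ≤ 2) {ε : ℝ} (hε : 0 < ε) :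
    ∀ᶠ T : ℝ in atTop, ∀ t ∈ Icc (1 / 8 * T) (7 / 8 * T), Gsc c f.h s T t ≤ ε := by
  obtain ⟨C, hC, hker⟩ := ker_decay f 4
  obtain ⟨M, hM⟩ : ∃ M, M = ∑ ρ ∈ ZT (max H 1), mx ρ := ⟨_, rfl⟩
  have hM0 : 0 ≤ M := by rw [hM]; exact Finset.sum_nonneg fun ρ _ => mx_nonneg ρ
  have hlim : Tendsto (fun T : ℝ => M * (2 * C * (16 ^ 4 * T ^ (-3 : ℝ)))) atTop (𝓝 0) := by
    have h1 := tendsto_rpow_neg_atTop (y := 3) (by norm_num)
    have h2 := (((h1.const_mul (16 ^ 4 : ℝ)).const_mul (2 * C)).const_mul M)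
    simpa using h2
  filter_upwards [hlim.eventually (gt_mem_nhds hε), eventually_ge_atTop (Real.exp 1), eventually_ge_atTop (16 * (max H 1))]
    with T hT hTe hTH
  intro t ht
  have hT0 : 0 < T := lt_of_lt_of_le (Real.exp_pos 1) hTe
  have hL : 1 ≤ Real.log T := by
    rw [Real.le_log_iff_exp_le hT0]
    exact hTe
  have hs0 : 0 < s := by linarith
  have hone : ∀ ρ ∈ CZc c T, |kzs f.h s T t ρ| ≤ 2 * C * (16 ^ 4 * T ^ (-3 : ℝ)) := by
    intro ρ hρ
    have hρH := fin_CZc hH T hρ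
    have hρ0 := (mem_ZT.mp (mem_CZc.mp hρ).1).1
    unfold kzs kz
    rw [abs_mul, abs_of_pos hs0]
    have h1 := hker (s * Real.log T * ((ρ : ℂ).re - 1 / 2)) (s * Real.log T * (t - (ρ : ℂ).im))
    have hre : |(ρ : ℂ).re - 1 / 2| ≤ 1 / 2 := by
      have h2 := zs_re ρ
      rw [abs_le]
      constructor <;> linarith [h2.1, h2.2]
    have h3 : |s * Real.log T * ((ρ : ℂ).re - 1 / 2)| ≤ Real.log T := by
      rw [abs_mul, abs_of_nonneg (by positivity : 0 ≤ s * Real.log T)]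
      calc s * Real.log T * |(ρ : ℂ).re - 1 / 2| ≤ 2 * Real.log T * (1 / 2) := by gcongr
        _ = Real.log T := by ring
    have h4 : Real.exp |s * Real.log T * ((ρ : ℂ).re - 1 / 2)| ≤ T := by
      calc Real.exp |s * Real.log T * ((ρ : ℂ).re - 1 / 2)| ≤ Real.exp (Real.log T) := Real.exp_le_exp.mpr h3
        _ = T := Real.exp_log hT0
    have h5 : T / 16 ≤ 1 + |s * Real.log T * (t - (ρ : ℂ).im)| := by
      have h6 : T / 16 ≤ t - (ρ : ℂ).im := by linarith [ht.1]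
      have h7 : 1 ≤ s * Real.log T := by nlinarith
      have h8 : t - (ρ : ℂ).im ≤ |s * Real.log T * (t - (ρ : ℂ).im)| := by
        rw [abs_of_nonneg (by apply mul_nonneg (by positivity) (by linarith))]
        exact le_mul_of_one_le_left (by linarith) h7
      linarith
    have h9 : C * Real.exp |s * Real.log T * ((ρ : ℂ).re - 1 / 2)| / (1 + |s * Real.log T * (t - (ρ : ℂ).im)|) ^ 4 ≤
        C * T / (T / 16) ^ 4 := by gcongr
    have h10 : C * T / (T / 16) ^ 4 = C * (16 ^ 4 * T ^ (-3 : ℝ)) := by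
      have : T ^ (-3 : ℝ) = (T ^ 3)⁻¹ := by
        rw [Real.rpow_neg hT0.le]
        norm_num
      rw [this]
      field_simp
    calc s * |ker f.h (s * Real.log T * ((ρ : ℂ).re - 1 / 2)) (s * Real.log T * (t - (ρ : ℂ).im))|
        ≤ 2 * (C * (16 ^ 4 * T ^ (-3 : ℝ))) := by
          apply mul_le_mul hs2 (h1.trans (h9.trans h10.le)) (abs_nonneg _) (by norm_num)
      _ = 2 * C * (16 ^ 4 * T ^ (-3 : ℝ)) := by ring
  have hsub : CZc c T ⊆ ZT (max H 1) := fun ρ hρ => mem_ZT.mpr ⟨(mem_ZT.mp (mem_CZc.mp hρ).1).1, fin_CZc hH T hρ⟩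
  unfold Gsc
  calc ∑ ρ ∈ CZc c T, mx ρ * |kzs f.h s T t ρ| ≤ ∑ ρ ∈ CZc c T, mx ρ * (2 * C * (16 ^ 4 * T ^ (-3 : ℝ))) :=
        Finset.sum_le_sum fun ρ hρ => mul_le_mul_of_nonneg_left (hone ρ hρ) (mx_nonneg ρ)
    _ = (∑ ρ ∈ CZc c T, mx ρ) * (2 * C * (16 ^ 4 * T ^ (-3 : ℝ))) := by rw [Finset.sum_mul]
    _ ≤ M * (2 * C * (16 ^ 4 * T ^ (-3 : ℝ))) := by
        apply mul_le_mul_of_nonneg_right _ (by positivity)
        rw [hM]
        exact Finset.sum_le_sum_of_subset_of_nonneg hsub fun ρ _ _ => mx_nonneg ρ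
    _ ≤ ε := hT.le

/-- the transfer without close zeros -/
theorem fin_transfer {c H : ℝ} (hc : 0 < c) (hH : NoClose c H) (g f : TF) (hg : g.th = 1 / 4) (hg0 : ∀ x, 0 ≤ g.h x)
    {s : ℝ} (hs : 1 ≤ s) (hs2 : s ≤ 2)
    (F : ℝ → ℝ → ℝ) (hFc : ∀ T, Continuous (F T)) (hF0 : ∀ T t, 0 ≤ F T t)
    {ε : ℝ} (hε : 0 < ε) : ∀ᶠ T : ℝ in atTop,
      |(∫ t, om g.h T t * (F T t * Zsc c f.h s T t)) -
        ∫ t, om g.h T t * (F T t * (f.h 0 - pss f.h s T t))| ≤ ε * ∫ t, om g.h T t * F T t := by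
  have he : 0 < ε / 3 := by positivity
  filter_upwards [fin_Gsc hH f hs hs2 he, dev_c hc f hs hs2 he,
    main_term_s f hs hs2 (δ := 1 / 8) (by norm_num) he, eventually_gt_atTop 1]
    with T h3 h4 h5 hT
  have hT0 : 0 < T := by linarith
  have hom0 : ∀ t, 0 ≤ om g.h T t := fun t => hg0 _
  have hpc := pss_cont f.h s T
  have i1 : Integrable (fun t => om g.h T t * F T t) := om_integrable g hg hT0 (hFc T)
  have i2 : Integrable (fun t => om g.h T t * (F T t * Zsc c f.h s T t)) :=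
    om_integrable g hg hT0 ((hFc T).mul (Zsc_cont c f s T))
  have i3 : Integrable (fun t => om g.h T t * (F T t * (f.h 0 - pss f.h s T t))) :=
    om_integrable g hg hT0 ((hFc T).mul (continuous_const.sub hpc))
  have hpt : ∀ t, ‖om g.h T t * (F T t * Zsc c f.h s T t) - om g.h T t * (F T t * (f.h 0 - pss f.h s T t))‖ ≤
      ε * (om g.h T t * F T t) := by
    intro t
    have h0 := hom0 t
    have hF0' := hF0 T t
    rw [← mul_sub, ← mul_sub, norm_mul, norm_mul, Real.norm_eq_abs, Real.norm_eq_abs, Real.norm_eq_abs,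
      abs_of_nonneg h0, abs_of_nonneg hF0']
    by_cases hz : om g.h T t = 0
    · rw [hz, zero_mul, zero_mul, mul_zero]
    · have htI := om_supp g hg hT0 t hz
      have h8 := h3 t htI
      have h9 := h4 t htI
      have h10 := h5 t ⟨htI.1, by linarith [htI.2]⟩
      have h11 : |Zsc c f.h s T t - (f.h 0 - pss f.h s T t)| ≤ ε := by
        have h12 := abs_le.mp h9
        have h13 := abs_le.mp h10
        rw [abs_le]
        constructor <;> linarith [h12.1, h12.2, h13.1, h13.2]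
      calc om g.h T t * (F T t * |Zsc c f.h s T t - (f.h 0 - pss f.h s T t)|) ≤ om g.h T t * (F T t * ε) := by gcongr
        _ = ε * (om g.h T t * F T t) := by ring
  rw [← integral_sub i2 i3, ← Real.norm_eq_abs]
  refine (norm_integral_le_of_norm_le (i1.const_mul ε) (Eventually.of_forall hpt)).trans ?_
  rw [integral_const_mul]

/-- the main inequality of the zero side when only finitely many zeros are close -/
theorem fin_main {c H : ℝ} (hc : 0 < c) (hc1 : c < 1) (hH : NoClose c H) (g f : TF) (hg : g.th = 1 / 4)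
    (hg0 : ∀ x, 0 ≤ g.h x) {s : ℝ} (hs : s = 1 ∨ s = 2)
    (F : ℝ → ℝ → ℝ) (hFc : ∀ T, Continuous (F T)) (hF0 : ∀ T t, 0 ≤ F T t)
    (hFb : ∃ κ C0 : ℝ, κ < 1 ∧ ∀ᶠ T : ℝ in atTop, ∀ t, |F T t| ≤ C0 * T ^ κ)
    (hwin : ∀ᶠ T : ℝ in atTop, ∀ γ : ℝ, ∫ t in (γ - hwc c T)..(γ + hwc c T), F T t = ∫ t, F T t * krs f.h s T (t - γ))
    {ε : ℝ} (hε : 0 < ε) : ∀ᶠ T : ℝ in atTop,
      f.h 0 * (∫ t, om g.h T t * F T t) - (∫ t, om g.h T t * (F T t * pss f.h s T t)) ≤
        (1 + ε) * (∫ t, om g.h T t * F T t) + ε * T := by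
  have hs1 : 1 ≤ s := by rcases hs with h | h <;> rw [h] <;> norm_num
  have hs2 : s ≤ 2 := by rcases hs with h | h <;> rw [h] <;> norm_num
  filter_upwards [fin_transfer hc hH g f hg hg0 hs1 hs2 F hFc hF0 hε, swap_c c g f hs1 F hFc hFb (half_pos hε), hwin,
    upper_c hc hc1 g hg hg0 F hFc hF0 hFb (half_pos hε), eventually_gt_atTop 1] with T h1 h2 h3 h4 hT
  have hT0 : 0 < T := by linarith
  have h5 : (∑ ρ ∈ IZc c T, om g.h T (ρ : ℂ).im * (∫ t in ((ρ : ℂ).im - hwc c T)..((ρ : ℂ).im + hwc c T), F T t)) =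
      ∑ ρ ∈ IZc c T, om g.h T (ρ : ℂ).im * ∫ t, F T t * krs f.h s T (t - (ρ : ℂ).im) := by
    refine Finset.sum_congr rfl fun ρ _ => ?_
    rw [h3]
  have i1 : Integrable (fun t => om g.h T t * F T t) := om_integrable g hg hT0 (hFc T)
  have i2 : Integrable (fun t => om g.h T t * (F T t * pss f.h s T t)) :=
    om_integrable g hg hT0 ((hFc T).mul (pss_cont f.h s T))
  have h6 : ∫ t, om g.h T t * (F T t * (f.h 0 - pss f.h s T t)) =
      f.h 0 * (∫ t, om g.h T t * F T t) - ∫ t, om g.h T t * (F T t * pss f.h s T t) := by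
    rw [← integral_const_mul, ← integral_sub (i1.const_mul _) i2]
    refine integral_congr_ae (Eventually.of_forall fun t => ?_)
    simp only
    ring
  rw [h5] at h4
  rw [h6] at h1
  have e1 := abs_le.mp h1
  have e2 := abs_le.mp h2
  linarith [e1.1, e1.2, e2.1, e2.2]

end Pool.Agent.Helper69.PP
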