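import Pool.Agent.Helper69.PP.Defs
import Pool.Agent.Helper4.SH.HardCore
import Pool.Agent.Helper78.SG.KDecay

/-!
# PP-Z, part 1: isolated zeros (window length `c`) and the hard core
-/

open MeasureTheory Set Filter Topology
open Pool.Agent.Helper57.Zeta Pool.Agent.Helper57.PC Pool.Agent.Helper57.LH Pool.Agent.Helper78.SG
open Pool.Agent.Helper4.SH
open scoped ContDiff

namespace Pool.Agent.Helper69.PP

theorem iso_props_c {c T : ℝ} (hc : 0 < c) {ρ : ZS} (h : ¬ CloseC c T ρ) :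
    (ρ : ℂ).re = 1 / 2 ∧ mx ρ = 1 ∧
      ∀ ρ' : ZS, ρ' ≠ ρ → c < |(ρ : ℂ).im - (ρ' : ℂ).im| * Real.log T / (2 * Real.pi) := by
  unfold CloseC at h
  push Not at h
  obtain ⟨h1, h2⟩ := h
  refine ⟨?_, ?_, h2⟩
  · by_contra hre
    have hne : refl ρ ≠ ρ := by
      intro he
      have h3 := refl_re ρ
      rw [he] at h3
      exact hre (by linarith)
    have h4 := h2 (refl ρ) hne
    rw [refl_im, sub_self, abs_zero, zero_mul, zero_div] at h4
    linarith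
  · have h3 := mx_one_le ρ
    unfold mx at h3 ⊢
    have h4 : 1 ≤ analyticOrderNatAt xi (ρ : ℂ) := by exact_mod_cast h3
    have h5 : analyticOrderNatAt xi (ρ : ℂ) = 1 := by omega
    rw [h5]
    norm_num

theorem mem_IZc {c T : ℝ} {ρ : ZS} : ρ ∈ IZc c T ↔ ρ ∈ ZT T ∧ ¬ CloseC c T ρ := by
  classical
  unfold IZc
  rw [Finset.mem_filter]

theorem mem_CZc {c T : ℝ} {ρ : ZS} : ρ ∈ CZc c T ↔ ρ ∈ ZT T ∧ CloseC c T ρ := by
  classical
  unfold CZc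
  rw [Finset.mem_filter]

/-- distinct elements of `IZc c T` have ordinates at distance more than the full window `2 hwc c T` -/
theorem IZc_sep {c T : ℝ} (hc : 0 < c) (hT : 1 < T) {ρ ρ' : ZS} (h : ρ ∈ IZc c T) (hne : ρ' ≠ ρ) :
    2 * hwc c T < |(ρ : ℂ).im - (ρ' : ℂ).im| := by
  obtain ⟨_, _, h3⟩ := iso_props_c hc (mem_IZc.mp h).2
  have h4 := h3 ρ' hne
  have hL : 0 < Real.log T := Real.log_pos hT
  have hp : 0 < 2 * Real.pi := by positivity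
  rw [lt_div_iff₀ hp] at h4
  unfold hwc
  have h5 : 2 * (Real.pi * c / Real.log T) = c * (2 * Real.pi) / Real.log T := by ring
  rw [h5, div_lt_iff₀ hL]
  exact h4

/-- the ordinates of `IZc c T` are in `[0, T]` -/
theorem IZc_im {c T : ℝ} {ρ : ZS} (h : ρ ∈ IZc c T) : 0 ≤ (ρ : ℂ).im ∧ (ρ : ℂ).im ≤ T :=
  mem_ZT.1 (mem_IZc.mp h).1

/-- the sum over the zeros that are not close -/
noncomputable def Zsc (c : ℝ) (h : ℝ → ℝ) (s T t : ℝ) : ℝ := ∑ ρ ∈ IZc c T, krs h s T (t - (ρ : ℂ).im)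

/-- the contribution of the close zeros -/
noncomputable def Gsc (c : ℝ) (h : ℝ → ℝ) (s T t : ℝ) : ℝ := ∑ ρ ∈ CZc c T, mx ρ * |kzs h s T t ρ|

theorem Zsc_bdd {c : ℝ} (hc : 0 < c) (f : TF) {s : ℝ} (hs : 1 ≤ s) :
    ∃ C : ℝ, 0 < C ∧ ∀ T : ℝ, 1 < T → ∀ t : ℝ, |Zsc c f.h s T t| ≤ C := by
  obtain ⟨C, hC, hk⟩ := ker_decay f 2
  have hg : 0 ≤ ∑' k : ℤ, HCaux.gk k := tsum_nonneg HCaux.gk_nonneg
  have hs0 : 0 ≤ s := by linarith
  have hpi := Real.pi_pos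
  obtain ⟨w, hw⟩ : ∃ w : ℝ, w = 2 * Real.pi * c := ⟨_, rfl⟩
  have hw0 : 0 < w := by rw [hw]; positivity
  refine ⟨s * C * ((1 + 1 / w) ^ 2 * ∑' k : ℤ, HCaux.gk k) + 1, by positivity, ?_⟩
  intro T hT t
  have hL : 0 < Real.log T := Real.log_pos hT
  have h1 : ∀ ρ ∈ IZc c T, |krs f.h s T (t - (ρ : ℂ).im)| ≤
      s * C * ((1 + 1 / w) ^ 2 * (1 / (1 + |Real.log T * (t - (ρ : ℂ).im) / w|) ^ 2)) := by
    intro ρ _
    unfold krs
    have h2 := hk 0 (s * Real.log T * (t - (ρ : ℂ).im))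
    rw [abs_zero, Real.exp_zero, mul_one] at h2
    rw [abs_mul, abs_of_nonneg hs0]
    have h3 : |Real.log T * (t - (ρ : ℂ).im)| ≤ |s * Real.log T * (t - (ρ : ℂ).im)| := by
      rw [mul_assoc, abs_mul s, abs_of_nonneg hs0]
      exact le_mul_of_one_le_left (abs_nonneg _) hs
    set x := |Real.log T * (t - (ρ : ℂ).im)| with hx
    have hx0 : 0 ≤ x := abs_nonneg _
    have h4 : C / (1 + |s * Real.log T * (t - (ρ : ℂ).im)|) ^ 2 ≤
        C * ((1 + 1 / w) ^ 2 * (1 / (1 + |Real.log T * (t - (ρ : ℂ).im) / w|) ^ 2)) := by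
      rw [abs_div, abs_of_pos hw0, ← hx, ← mul_assoc, mul_one_div]
      rw [div_le_div_iff₀ (by positivity) (by positivity)]
      have h5 : (1 + x / w) ≤ (1 + 1 / w) * (1 + |s * Real.log T * (t - (ρ : ℂ).im)|) := by
        have h6 : (1 + 1 / w) * (1 + x) ≤ (1 + 1 / w) * (1 + |s * Real.log T * (t - (ρ : ℂ).im)|) := by
          apply mul_le_mul_of_nonneg_left _ (by positivity)
          linarith
        refine le_trans ?_ h6
        have h7 : (1 + 1 / w) * (1 + x) = 1 + x / w + (1 / w + x) := by field_simp; ring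
        rw [h7]
        have : 0 ≤ 1 / w + x := by positivity
        linarith
      have h6 : (1 + x / w) ^ 2 ≤ ((1 + 1 / w) * (1 + |s * Real.log T * (t - (ρ : ℂ).im)|)) ^ 2 :=
        pow_le_pow_left₀ (by positivity) h5 2
      calc C * (1 + x / w) ^ 2 ≤ C * ((1 + 1 / w) * (1 + |s * Real.log T * (t - (ρ : ℂ).im)|)) ^ 2 :=
            mul_le_mul_of_nonneg_left h6 hC.le
        _ = C * (1 + 1 / w) ^ 2 * (1 + |s * Real.log T * (t - (ρ : ℂ).im)|) ^ 2 := by ring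
    calc s * |ker f.h 0 (s * Real.log T * (t - (ρ : ℂ).im))|
        ≤ s * (C * ((1 + 1 / w) ^ 2 * (1 / (1 + |Real.log T * (t - (ρ : ℂ).im) / w|) ^ 2))) :=
          mul_le_mul_of_nonneg_left (h2.trans h4) hs0
      _ = _ := by ring
  have h5 : ∑ ρ ∈ IZc c T, 1 / (1 + |Real.log T * (t - (ρ : ℂ).im) / w|) ^ 2 ≤ ∑' k : ℤ, HCaux.gk k := by
    refine HCaux.sum_sep (IZc c T) (fun ρ => Real.log T * (t - (ρ : ℂ).im) / w) ?_
    intro ρ hρ ρ' _ hne
    have h6 := IZc_sep hc hT hρ hne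
    have h7 : Real.log T * (t - (ρ : ℂ).im) / w - Real.log T * (t - (ρ' : ℂ).im) / w =
        Real.log T * ((ρ' : ℂ).im - (ρ : ℂ).im) / w := by ring
    show 1 < |Real.log T * (t - (ρ : ℂ).im) / w - Real.log T * (t - (ρ' : ℂ).im) / w|
    rw [h7, abs_div, abs_mul, abs_of_pos hL, abs_of_pos hw0, abs_sub_comm, one_lt_div hw0]
    have h8 : Real.log T * (2 * hwc c T) = w := by
      unfold hwc
      rw [hw]
      field_simp
    have h9 : Real.log T * (2 * hwc c T) < Real.log T * |(ρ : ℂ).im - (ρ' : ℂ).im| :=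
      mul_lt_mul_of_pos_left h6 hL
    rw [h8] at h9
    exact h9
  unfold Zsc
  calc |∑ ρ ∈ IZc c T, krs f.h s T (t - (ρ : ℂ).im)|
      ≤ ∑ ρ ∈ IZc c T, |krs f.h s T (t - (ρ : ℂ).im)| := Finset.abs_sum_le_sum_abs _ _
    _ ≤ ∑ ρ ∈ IZc c T, s * C * ((1 + 1 / w) ^ 2 * (1 / (1 + |Real.log T * (t - (ρ : ℂ).im) / w|) ^ 2)) :=
        Finset.sum_le_sum h1
    _ = s * C * ((1 + 1 / w) ^ 2 * ∑ ρ ∈ IZc c T, 1 / (1 + |Real.log T * (t - (ρ : ℂ).im) / w|) ^ 2) := by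
        rw [Finset.mul_sum, Finset.mul_sum]
    _ ≤ s * C * ((1 + 1 / w) ^ 2 * ∑' k : ℤ, HCaux.gk k) := by
        apply mul_le_mul_of_nonneg_left _ (by positivity)
        exact mul_le_mul_of_nonneg_left h5 (by positivity)
    _ ≤ _ := by linarith

theorem IZc_card (c : ℝ) : ∀ᶠ T : ℝ in atTop, ((IZc c T).card : ℝ) ≤ T * Real.log T := by
  filter_upwards [NT_le_ev] with T hT
  have h1 : ((IZc c T).card : ℝ) = ∑ _ρ ∈ IZc c T, (1 : ℝ) := by
    rw [Finset.sum_const, nsmul_eq_mul, mul_one]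
  have hsub : IZc c T ⊆ ZT T := fun ρ hρ => (mem_IZc.mp hρ).1
  calc ((IZc c T).card : ℝ) = ∑ _ρ ∈ IZc c T, (1 : ℝ) := h1
    _ ≤ ∑ ρ ∈ IZc c T, mx ρ := Finset.sum_le_sum fun ρ _ => mx_one_le ρ
    _ ≤ ∑ ρ ∈ ZT T, mx ρ :=
        Finset.sum_le_sum_of_subset_of_nonneg hsub fun ρ _ _ => by have := mx_one_le ρ; linarith
    _ = NT T := sum_ZT_mx T
    _ ≤ T * Real.log T := hT

end Pool.Agent.Helper69.PP
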