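import Pool.Agent.Helper4.PPZ.Iso
import Pool.Agent.Helper4.SH.Window
import Pool.Agent.Helper78.SG.KDecay

/-!
# PP-Z, part 3: moving the weight from the zero to `t`
-/

open MeasureTheory Set Filter Topology
open Pool.Agent.Helper57.Zeta Pool.Agent.Helper57.PC Pool.Agent.Helper57.LH Pool.Agent.Helper78.SG
open Pool.Agent.Helper4.SH
open scoped ContDiff

namespace Pool.Agent.Helper69.PP

private lemma h94_cs (g : TF) : HasCompactSupport g.h := by
  refine HasCompactSupport.of_support_subset_isCompact (isCompact_Icc (a := -g.th) (b := g.th)) ?_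
  intro y hy
  by_contra hcon
  have : g.th ≤ |y| := by
    rw [Set.mem_Icc, not_and_or] at hcon
    have := g.th0
    rcases hcon with h | h
    · rw [abs_of_nonpos (by linarith)]; linarith
    · rw [abs_of_nonneg (by linarith)]; linarith
  exact hy (g.supp y this)

private lemma h94_lip (g : TF) : ∃ K : ℝ, 0 ≤ K ∧ ∀ x y : ℝ, |g.h x - g.h y| ≤ K * |x - y| := by
  obtain ⟨C, hC⟩ := ContDiff.lipschitzWith_of_hasCompactSupport (h94_cs g) g.smooth (by simp)
  refine ⟨C, C.2, fun x y => ?_⟩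
  have := hC.dist_le_mul x y
  simpa [Real.dist_eq] using this

private lemma h94_bdd (g : TF) : ∃ B : ℝ, 0 ≤ B ∧ ∀ x : ℝ, |g.h x| ≤ B := by
  obtain ⟨B, hB⟩ := (h94_cs g).exists_bound_of_continuous g.smooth.continuous
  refine ⟨B, (abs_nonneg _).trans (hB 0), fun x => hB x⟩

private lemma h94_om_cont (g : TF) (T : ℝ) : Continuous (fun t => om g.h T t) := by
  unfold Pool.Agent.Helper4.SH.om
  exact g.smooth.continuous.comp (by fun_prop)

private lemma h94_gi : Integrable (fun v : ℝ => 1 / (1 + |v|) ^ 2) := by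
  have h := integrable_one_add_norm (E := ℝ) (μ := volume) (r := 2) (by simp)
  refine h.congr (Eventually.of_forall fun v => ?_)
  have h1 : (0 : ℝ) ≤ 1 + |v| := by positivity
  simp only [Real.norm_eq_abs]
  rw [Real.rpow_neg h1]
  norm_num

/-- the first absolute moment of the kernel -/
private lemma h94_moment (f : TF) {s : ℝ} (hs : 1 ≤ s) : ∃ C : ℝ, 0 < C ∧ ∀ T : ℝ, 1 < T → ∀ γ : ℝ,
    Integrable (fun t => |t - γ| * |krs f.h s T (t - γ)|) ∧
    ∫ t, |t - γ| * |krs f.h s T (t - γ)| ≤ C / Real.log T ^ 2 := by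
  obtain ⟨C, hC, hk⟩ := ker_decay f 3
  have hI0 : 0 ≤ ∫ v : ℝ, 1 / (1 + |v|) ^ 2 := integral_nonneg fun v => by positivity
  refine ⟨C * (∫ v : ℝ, 1 / (1 + |v|) ^ 2) + 1, by positivity, fun T hT γ => ?_⟩
  have hL : 0 < Real.log T := Real.log_pos hT
  set L := Real.log T with hLdef
  have hb : ∀ u : ℝ, |u| * |krs f.h s T u| ≤ C / L * (1 / (1 + |L * u|) ^ 2) := by
    intro u
    have h1 := hk 0 (s * L * u)
    rw [abs_zero, Real.exp_zero, mul_one] at h1
    have h2 : |krs f.h s T u| = s * |ker f.h 0 (s * L * u)| := by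
      unfold krs
      rw [abs_mul, abs_of_nonneg (by linarith : (0 : ℝ) ≤ s)]
    have h3 : |s * L * u| = s * |L * u| := by
      rw [mul_assoc, abs_mul, abs_of_nonneg (by linarith : (0 : ℝ) ≤ s)]
    have h4 : |L * u| = L * |u| := by rw [abs_mul, abs_of_pos hL]
    rw [h3] at h1
    have hu := abs_nonneg u
    have hLu : 0 ≤ L * |u| := by positivity
    have h5 : L * |u| ≤ s * (L * |u|) := by nlinarith
    rw [h2, h4]
    rw [h4] at h1
    have h6 : s * |ker f.h 0 (s * L * u)| ≤ s * (C / (1 + s * (L * |u|)) ^ 3) :=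
      mul_le_mul_of_nonneg_left h1 (by linarith)
    have h7 : |u| * (s * (C / (1 + s * (L * |u|)) ^ 3)) ≤ C / L * (1 / (1 + L * |u|) ^ 2) := by
      rw [div_mul_div_comm, mul_one, ← mul_div_assoc, ← mul_div_assoc, div_le_div_iff₀ (by positivity) (by positivity)]
      have h8 : (1 + L * |u|) ^ 2 ≤ (1 + s * (L * |u|)) ^ 2 := by gcongr
      have h9 : s * (L * |u|) ≤ 1 + s * (L * |u|) := by linarith
      calc |u| * (s * C) * (L * (1 + L * |u|) ^ 2) = C * ((s * (L * |u|)) * (1 + L * |u|) ^ 2) := by ring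
        _ ≤ C * ((1 + s * (L * |u|)) * (1 + s * (L * |u|)) ^ 2) := by
          apply mul_le_mul_of_nonneg_left _ hC.le
          exact mul_le_mul h9 h8 (by positivity) (by positivity)
        _ = C * (1 + s * (L * |u|)) ^ 3 := by ring
    exact (mul_le_mul_of_nonneg_left h6 hu).trans h7
  have hgi : Integrable (fun u : ℝ => C / L * (1 / (1 + |L * u|) ^ 2)) :=
    ((h94_gi.comp_mul_left' hL.ne')).const_mul _
  have hcont : Continuous (fun u => |u| * |krs f.h s T u|) :=
    continuous_abs.mul (continuous_abs.comp (krs_cont f s T))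
  have hint : Integrable (fun u => |u| * |krs f.h s T u|) := by
    refine hgi.mono' hcont.aestronglyMeasurable (Eventually.of_forall fun u => ?_)
    rw [Real.norm_eq_abs, abs_of_nonneg (by positivity)]
    exact hb u
  refine ⟨hint.comp_sub_right γ, ?_⟩
  have e1 : ∫ t, |t - γ| * |krs f.h s T (t - γ)| = ∫ u, |u| * |krs f.h s T u| :=
    integral_sub_right_eq_self (fun u => |u| * |krs f.h s T u|) γ
  rw [e1]
  have e2 : ∫ u, |u| * |krs f.h s T u| ≤ ∫ u, C / L * (1 / (1 + |L * u|) ^ 2) := integral_mono hint hgi hb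
  have e3 : ∫ u, C / L * (1 / (1 + |L * u|) ^ 2) = C * (∫ v : ℝ, 1 / (1 + |v|) ^ 2) / L ^ 2 := by
    rw [integral_const_mul]
    have := Measure.integral_comp_mul_left (fun v : ℝ => 1 / (1 + |v|) ^ 2) L
    rw [this, abs_of_pos (inv_pos.mpr hL), smul_eq_mul]
    field_simp
  rw [e3] at e2
  refine e2.trans ?_
  gcongr
  linarith

theorem pow_ev (K : ℝ) {κ ε : ℝ} (hκ : κ < 1) (hε : 0 < ε) : ∀ᶠ T : ℝ in atTop, K * T ^ κ ≤ ε * T := by
  have h := tendsto_rpow_neg_atTop (y := 1 - κ) (by linarith)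
  have h2 := h.const_mul K
  rw [mul_zero] at h2
  filter_upwards [h2.eventually (gt_mem_nhds hε), eventually_gt_atTop (0 : ℝ)] with T hT h0
  have e : T ^ κ = T ^ (-(1 - κ)) * T := by
    rw [← Real.rpow_add_one h0.ne']
    congr 1
    ring
  rw [e, ← mul_assoc]
  exact mul_le_mul_of_nonneg_right hT.le h0.le

theorem swap_c (c : ℝ) (g f : TF) {s : ℝ} (hs : 1 ≤ s) (F : ℝ → ℝ → ℝ) (hFc : ∀ T, Continuous (F T))
    (hFb : ∃ κ C0 : ℝ, κ < 1 ∧ ∀ᶠ T : ℝ in atTop, ∀ t, |F T t| ≤ C0 * T ^ κ) {ε : ℝ} (hε : 0 < ε) : ∀ᶠ T : ℝ in atTop,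
    |(∑ ρ ∈ IZc c T, om g.h T (ρ : ℂ).im * ∫ t, F T t * krs f.h s T (t - (ρ : ℂ).im)) -
      ∫ t, om g.h T t * (F T t * Zsc c f.h s T t)| ≤ ε * T := by
  obtain ⟨κ, C0, hκ, hF⟩ := hFb
  obtain ⟨K, hK, hlip⟩ := h94_lip g
  obtain ⟨B, hB, hbd⟩ := h94_bdd g
  obtain ⟨C, hC, hmom⟩ := h94_moment f hs
  filter_upwards [pow_ev (C0 * K * C) hκ hε, IZc_card c, eventually_ge_atTop (Real.exp 1), hF] with T hT hcard hTe hFA0
  have hT1 : 1 < T := lt_of_lt_of_le (by simpa using Real.add_one_lt_exp (x := 1) one_ne_zero |>.trans_le' (by norm_num)) hTe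
  have hT0 : 0 < T := by linarith
  have hL1 : 1 ≤ Real.log T := by
    rw [← Real.log_exp 1]
    exact Real.log_le_log (Real.exp_pos 1) hTe
  set A := C0 * T ^ κ with hA
  have hFA : ∀ t, |F T t| ≤ A := hFA0
  have hA0 : 0 ≤ A := (abs_nonneg _).trans (hFA 0)
  have hkc : ∀ γ : ℝ, Continuous (fun t => krs f.h s T (t - γ)) := fun γ =>
    (krs_cont f s T).comp (continuous_id.sub continuous_const)
  have hki : ∀ γ : ℝ, Integrable (fun t => krs f.h s T (t - γ)) := fun γ =>
    (krs_integrable f hs hT1).comp_sub_right γ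
  have hi1 : ∀ γ : ℝ, Integrable (fun t => F T t * krs f.h s T (t - γ)) := by
    intro γ
    refine ((hki γ).abs.const_mul A).mono' ((hFc T).mul (hkc γ)).aestronglyMeasurable
      (Eventually.of_forall fun t => ?_)
    rw [Real.norm_eq_abs, abs_mul]
    exact mul_le_mul_of_nonneg_right (hFA t) (abs_nonneg _)
  have hi2 : ∀ γ : ℝ, Integrable (fun t => om g.h T t * (F T t * krs f.h s T (t - γ))) := by
    intro γ
    refine ((hi1 γ).abs.const_mul B).mono' ((h94_om_cont g T).mul ((hFc T).mul (hkc γ))).aestronglyMeasurable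
      (Eventually.of_forall fun t => ?_)
    rw [Real.norm_eq_abs, abs_mul]
    exact mul_le_mul_of_nonneg_right (hbd _) (abs_nonneg _)
  have e1 : ∫ t, om g.h T t * (F T t * Zsc c f.h s T t) =
      ∑ ρ ∈ IZc c T, ∫ t, om g.h T t * (F T t * krs f.h s T (t - (ρ : ℂ).im)) := by
    rw [← integral_finsetSum _ (fun ρ _ => hi2 _)]
    congr 1
    ext t
    unfold Zsc
    rw [Finset.mul_sum, Finset.mul_sum]
  have hone : ∀ γ : ℝ, |om g.h T γ * (∫ t, F T t * krs f.h s T (t - γ)) -
      ∫ t, om g.h T t * (F T t * krs f.h s T (t - γ))| ≤ A * (K / T) * (C / Real.log T ^ 2) := by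
    intro γ
    rw [← integral_const_mul, ← integral_sub ((hi1 γ).const_mul _) (hi2 γ)]
    have hm := hmom T hT1 γ
    calc |∫ t, (om g.h T γ * (F T t * krs f.h s T (t - γ)) - om g.h T t * (F T t * krs f.h s T (t - γ)))|
        ≤ ∫ t, |om g.h T γ * (F T t * krs f.h s T (t - γ)) - om g.h T t * (F T t * krs f.h s T (t - γ))| :=
          abs_integral_le_integral_abs
      _ ≤ ∫ t, A * (K / T) * (|t - γ| * |krs f.h s T (t - γ)|) := by
          refine integral_mono (((hi1 γ).const_mul _).sub (hi2 γ)).abs (hm.1.const_mul _) fun t => ?_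
          have e2 : om g.h T γ * (F T t * krs f.h s T (t - γ)) - om g.h T t * (F T t * krs f.h s T (t - γ)) =
              (om g.h T γ - om g.h T t) * F T t * krs f.h s T (t - γ) := by ring
          have e3 : |om g.h T γ - om g.h T t| ≤ K / T * |t - γ| := by
            unfold Pool.Agent.Helper4.SH.om
            refine (hlip _ _).trans ?_
            have e4 : γ / T - 1 / 2 - (t / T - 1 / 2) = -(t - γ) / T := by ring
            rw [e4, abs_div, abs_neg, abs_of_pos hT0]
            exact le_of_eq (by ring)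
          simp only [e2, abs_mul]
          calc |om g.h T γ - om g.h T t| * |F T t| * |krs f.h s T (t - γ)|
              ≤ (K / T * |t - γ|) * A * |krs f.h s T (t - γ)| := by
                apply mul_le_mul_of_nonneg_right _ (abs_nonneg _)
                exact mul_le_mul e3 (hFA t) (abs_nonneg _) (by positivity)
            _ = A * (K / T) * (|t - γ| * |krs f.h s T (t - γ)|) := by ring
      _ = A * (K / T) * ∫ t, |t - γ| * |krs f.h s T (t - γ)| := integral_const_mul _ _
      _ ≤ A * (K / T) * (C / Real.log T ^ 2) := mul_le_mul_of_nonneg_left hm.2 (by positivity)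
  rw [e1, ← Finset.sum_sub_distrib]
  calc |∑ ρ ∈ IZc c T, (om g.h T (ρ : ℂ).im * (∫ t, F T t * krs f.h s T (t - (ρ : ℂ).im)) -
        ∫ t, om g.h T t * (F T t * krs f.h s T (t - (ρ : ℂ).im)))|
      ≤ ∑ ρ ∈ IZc c T, |om g.h T (ρ : ℂ).im * (∫ t, F T t * krs f.h s T (t - (ρ : ℂ).im)) -
        ∫ t, om g.h T t * (F T t * krs f.h s T (t - (ρ : ℂ).im))| := Finset.abs_sum_le_sum_abs _ _
    _ ≤ ∑ _ρ ∈ IZc c T, A * (K / T) * (C / Real.log T ^ 2) := Finset.sum_le_sum fun ρ _ => hone _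
    _ = ((IZc c T).card : ℝ) * (A * (K / T) * (C / Real.log T ^ 2)) := by rw [Finset.sum_const, nsmul_eq_mul]
    _ ≤ (T * Real.log T) * (A * (K / T) * (C / Real.log T ^ 2)) :=
        mul_le_mul_of_nonneg_right hcard (by positivity)
    _ = (A * K * C) / Real.log T := by
        field_simp
    _ ≤ A * K * C := div_le_self (by positivity) hL1
    _ = C0 * K * C * T ^ κ := by rw [hA]; ring
    _ ≤ ε * T := hT

end Pool.Agent.Helper69.PP
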