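import Pool.Agent.Helper4.PPZ.Scale
import Pool.Agent.Helper4.SH.Transfer

/-!
# PP-Z, part 4: transfer from isolated zeros to the explicit formula
-/

open MeasureTheory Set Filter Topology
open Pool.Agent.Helper57.Zeta Pool.Agent.Helper57.PC Pool.Agent.Helper57.LH Pool.Agent.Helper78.SG
open Pool.Agent.Helper4.SH
open scoped ContDiff

namespace Pool.Agent.Helper69.PP

theorem om_hcs (g : TF) (hg : g.th = 1 / 4) {T : ℝ} (hT0 : 0 < T) :
    HasCompactSupport (fun t => Pool.Agent.Helper4.SH.om g.h T t) := by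
  refine HasCompactSupport.of_support_subset_isCompact (isCompact_Icc (a := 1 / 8 * T) (b := 7 / 8 * T)) ?_
  intro t ht
  exact om_supp g hg hT0 t ht

theorem om_integrable (g : TF) (hg : g.th = 1 / 4) {T : ℝ} (hT0 : 0 < T) {H : ℝ → ℝ} (hH : Continuous H) :
    Integrable (fun t => Pool.Agent.Helper4.SH.om g.h T t * H t) :=
  ((om_cont g T).mul hH).integrable_of_hasCompactSupport (om_hcs g hg hT0).mul_right

open TransferAux in
theorem transfer_c {c : ℝ} (hc : 0 < c) (g f : TF) (hg : g.th = 1 / 4) (hg0 : ∀ x, 0 ≤ g.h x)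
    {s : ℝ} (hs : 1 ≤ s) (hs2 : s ≤ 2)
    (F : ℝ → ℝ → ℝ) (hFc : ∀ T, Continuous (F T)) (hui : UIF g f s F)
    {ε : ℝ} (hε : 0 < ε) : ∃ p : ℝ, 0 < p ∧ ∀ᶠ T : ℝ in atTop, ∑ ρ ∈ CZc c T, mx ρ ≤ p * (T * Real.log T) →
      |(∫ t, om g.h T t * (F T t * Zsc c f.h s T t)) -
        ∫ t, om g.h T t * (F T t * (f.h 0 - pss f.h s T t))| ≤ ε * T := by
  obtain ⟨⟨C, hC0, hC⟩, hui⟩ := hui
  obtain ⟨K, hK0, hK⟩ := Zsc_bdd hc f hs
  obtain ⟨K', hK'⟩ : ∃ K' : ℝ, K' = K + |f.h 0| + 1 := ⟨_, rfl⟩
  have hf0 := abs_nonneg (f.h 0)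
  have hK'0 : 0 < K' := by rw [hK']; positivity
  obtain ⟨η, hη0, hη⟩ := hui (ε / (2 * K')) (by positivity)
  obtain ⟨e, he0, he⟩ : ∃ e : ℝ, 0 < e ∧ 3 * e * C = ε / 2 := by
    refine ⟨ε / (6 * C), by positivity, ?_⟩
    field_simp
    ring
  obtain ⟨p, hp, hweak⟩ := weak_c c f hs hs2 he0 hη0
  refine ⟨p, hp, ?_⟩
  filter_upwards [hC, hη, hweak, dev_c hc f hs hs2 he0,
    main_term_s f hs hs2 (δ := 1 / 8) (by norm_num) he0, eventually_gt_atTop 1]
    with T h1 h2 h3 h4 h5 hT hsum
  have hT0 : 0 < T := by linarith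
  have hB := h3 hsum
  set B : Set ℝ := {t | e < Gsc c f.h s T t} with hBdef
  have hBm : MeasurableSet B := (isOpen_lt continuous_const (Gsc_cont c f s T)).measurableSet
  have hX := h2 B hBm hB
  have hom0 := om_nonneg g hg0 T
  have hpc := pss_cont f.h s T
  have hWc : Continuous (fun t => |F T t| * (1 + |pss f.h s T t|)) :=
    (hFc T).abs.mul (continuous_const.add hpc.abs)
  have i1 : Integrable (fun t => om g.h T t * (|F T t| * (1 + |pss f.h s T t|))) := om_integrable g hg hT0 hWc
  have i2 : Integrable (fun t => om g.h T t * (F T t * Zsc c f.h s T t)) :=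
    om_integrable g hg hT0 ((hFc T).mul (Zsc_cont c f s T))
  have i3 : Integrable (fun t => om g.h T t * (F T t * (f.h 0 - pss f.h s T t))) :=
    om_integrable g hg hT0 ((hFc T).mul (continuous_const.sub hpc))
  have hpt : ∀ t, ‖om g.h T t * (F T t * Zsc c f.h s T t) - om g.h T t * (F T t * (f.h 0 - pss f.h s T t))‖ ≤
      3 * e * (om g.h T t * (|F T t| * (1 + |pss f.h s T t|))) +
      K' * B.indicator (fun t => om g.h T t * (|F T t| * (1 + |pss f.h s T t|))) t := by
    intro t
    have h0 := hom0 t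
    have hF0 := abs_nonneg (F T t)
    have hp0 := abs_nonneg (pss f.h s T t)
    have hW0 : 0 ≤ om g.h T t * (|F T t| * (1 + |pss f.h s T t|)) := by positivity
    have hI0 : 0 ≤ B.indicator (fun t => om g.h T t * (|F T t| * (1 + |pss f.h s T t|))) t :=
      indicator_nonneg (fun x _ => mul_nonneg (hom0 x) (by positivity)) t
    rw [← mul_sub, ← mul_sub, norm_mul, norm_mul, Real.norm_eq_abs, Real.norm_eq_abs, Real.norm_eq_abs,
      abs_of_nonneg h0]
    by_cases hz : om g.h T t = 0
    · rw [hz, zero_mul]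
      rw [hz] at hW0
      have : 0 ≤ 3 * e * (0 * (|F T t| * (1 + |pss f.h s T t|))) := by rw [zero_mul, mul_zero]
      nlinarith [mul_nonneg hK'0.le hI0]
    · have htI := om_supp g hg hT0 t hz
      by_cases htB : t ∈ B
      · rw [indicator_of_mem htB]
        have h8 : |Zsc c f.h s T t - (f.h 0 - pss f.h s T t)| ≤ K' * (1 + |pss f.h s T t|) := by
          have h9 := hK T hT t
          have h10 := abs_sub (Zsc c f.h s T t) (f.h 0 - pss f.h s T t)
          have h11 := abs_sub (f.h 0) (pss f.h s T t)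
          have h12 : K + |f.h 0| + |pss f.h s T t| ≤ K' * (1 + |pss f.h s T t|) := by
            rw [hK']
            nlinarith [mul_nonneg hK0.le hp0, mul_nonneg hf0 hp0]
          linarith
        have h13 : om g.h T t * (|F T t| * |Zsc c f.h s T t - (f.h 0 - pss f.h s T t)|) ≤
            om g.h T t * (|F T t| * (K' * (1 + |pss f.h s T t|))) := by gcongr
        have h14 : om g.h T t * (|F T t| * (K' * (1 + |pss f.h s T t|))) =
            K' * (om g.h T t * (|F T t| * (1 + |pss f.h s T t|))) := by ring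
        have h15 : 0 ≤ 3 * e * (om g.h T t * (|F T t| * (1 + |pss f.h s T t|))) := by positivity
        linarith
      · rw [indicator_of_notMem htB, mul_zero, add_zero]
        have h8 : Gsc c f.h s T t ≤ e := by
          by_contra hcc
          exact htB (not_le.mp hcc)
        have h9 := h4 t htI
        have h10 := h5 t ⟨htI.1, by linarith [htI.2]⟩
        have h11 : |Zsc c f.h s T t - (f.h 0 - pss f.h s T t)| ≤ 3 * e := by
          have h12 := abs_le.mp h9
          have h13 := abs_le.mp h10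
          rw [abs_le]
          constructor <;> linarith [h12.1, h12.2, h13.1, h13.2]
        have h16 : 3 * e ≤ 3 * e * (1 + |pss f.h s T t|) := by nlinarith
        have h13 : om g.h T t * (|F T t| * |Zsc c f.h s T t - (f.h 0 - pss f.h s T t)|) ≤
            om g.h T t * (|F T t| * (3 * e * (1 + |pss f.h s T t|))) := by
          gcongr
          linarith
        have h14 : om g.h T t * (|F T t| * (3 * e * (1 + |pss f.h s T t|))) =
            3 * e * (om g.h T t * (|F T t| * (1 + |pss f.h s T t|))) := by ring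
        linarith
  rw [← integral_sub i2 i3, ← Real.norm_eq_abs]
  have j1 : Integrable (fun t => 3 * e * (om g.h T t * (|F T t| * (1 + |pss f.h s T t|)))) := i1.const_mul _
  have j2 : Integrable (fun t => K' * B.indicator (fun t => om g.h T t * (|F T t| * (1 + |pss f.h s T t|))) t) :=
    (i1.indicator hBm).const_mul _
  have hmain := norm_integral_le_of_norm_le (j1.add j2) (Eventually.of_forall hpt)
  refine hmain.trans ?_
  have e1 : ∫ t, (3 * e * (om g.h T t * (|F T t| * (1 + |pss f.h s T t|))) +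
      K' * B.indicator (fun t => om g.h T t * (|F T t| * (1 + |pss f.h s T t|))) t) =
      3 * e * (∫ t, om g.h T t * (|F T t| * (1 + |pss f.h s T t|))) +
      K' * ∫ t in B, om g.h T t * (|F T t| * (1 + |pss f.h s T t|)) := by
    rw [integral_add j1 j2, integral_const_mul, integral_const_mul, integral_indicator hBm]
  have e2 : (∫ t, ((fun t => 3 * e * (om g.h T t * (|F T t| * (1 + |pss f.h s T t|)))) +
      fun t => K' * B.indicator (fun t => om g.h T t * (|F T t| * (1 + |pss f.h s T t|))) t) t) =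
      3 * e * (∫ t, om g.h T t * (|F T t| * (1 + |pss f.h s T t|))) +
      K' * ∫ t in B, om g.h T t * (|F T t| * (1 + |pss f.h s T t|)) := e1
  have k1 : 3 * e * (∫ t, om g.h T t * (|F T t| * (1 + |pss f.h s T t|))) ≤ 3 * e * (C * T) := by gcongr
  have k2 : K' * (∫ t in B, om g.h T t * (|F T t| * (1 + |pss f.h s T t|))) ≤ K' * (ε / (2 * K') * T) := by gcongr
  have k3 : K' * (ε / (2 * K') * T) = ε / 2 * T := by field_simp
  have k4 : 3 * e * (C * T) = ε / 2 * T := by rw [← he]; ring
  rw [e2]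
  linarith

end Pool.Agent.Helper69.PP
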