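import Pool.Agent.Helper69.SM.Defs
import Pool.Agent.Helper69.SM.MV
import Pool.Agent.Helper69.PP.Zero

/-!
# SM, zero side in short intervals `[x, x + x^b]`: no close zeros, no uniform integrability
-/

open MeasureTheory Set Filter Topology
open Pool.Agent.Helper57.Zeta Pool.Agent.Helper57.PC Pool.Agent.Helper57.LH Pool.Agent.Helper78.SG
open Pool.Agent.Helper4.SH
open scoped ContDiff Interval

namespace Pool.Agent.Helper69.SM

/-- the zeros with ordinate in `[x + H/8, x + 7H/8]` -/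
noncomputable def ZJ (x H : ℝ) : Finset ZS :=
  (ZT (x + H)).filter (fun ρ => x + H / 8 ≤ (ρ : ℂ).im ∧ (ρ : ℂ).im ≤ x + 7 * H / 8)

/-- no zero with ordinate in `[x + H/8, x + 7H/8]` is close -/
def NCl (c x H : ℝ) : Prop :=
  ∀ ρ : ZS, x + H / 8 ≤ (ρ : ℂ).im → (ρ : ℂ).im ≤ x + 7 * H / 8 → ¬ CloseC c x ρ

/-- the sum over the zeros in the window -/
noncomputable def ZsJ (h : ℝ → ℝ) (s x H t : ℝ) : ℝ := ∑ ρ ∈ ZJ x H, krs h s x (t - (ρ : ℂ).im)

theorem mem_ZJ {x H : ℝ} (hx : 0 ≤ x) (hH : 0 ≤ H) {ρ : ZS} :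
    ρ ∈ ZJ x H ↔ x + H / 8 ≤ (ρ : ℂ).im ∧ (ρ : ℂ).im ≤ x + 7 * H / 8 := by
  unfold ZJ
  rw [Finset.mem_filter, mem_ZT]
  constructor
  · exact fun h => h.2
  · exact fun h => ⟨⟨by linarith [h.1], by linarith [h.2]⟩, h⟩

theorem loc_props {c x H : ℝ} (hc : 0 < c) (h : NCl c x H) {ρ : ZS} (h1 : x + H / 8 ≤ (ρ : ℂ).im)
    (h2 : (ρ : ℂ).im ≤ x + 7 * H / 8) :
    (ρ : ℂ).re = 1 / 2 ∧ mx ρ = 1 ∧
      ∀ ρ' : ZS, ρ' ≠ ρ → c < |(ρ : ℂ).im - (ρ' : ℂ).im| * Real.log x / (2 * Real.pi) :=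
  Pool.Agent.Helper69.PP.iso_props_c hc (h ρ h1 h2)

theorem loc_sep {c x H : ℝ} (hc : 0 < c) (hx : 1 < x) (hH : 0 ≤ H) (h : NCl c x H) {ρ ρ' : ZS} (hρ : ρ ∈ ZJ x H)
    (hne : ρ' ≠ ρ) : 2 * hw c x < |(ρ : ℂ).im - (ρ' : ℂ).im| := by
  obtain ⟨h1, h2⟩ := (mem_ZJ (by linarith) hH).mp hρ
  obtain ⟨_, _, h3⟩ := loc_props hc h h1 h2
  have h4 := h3 ρ' hne
  have hL : 0 < Real.log x := Real.log_pos hx
  have hp : 0 < 2 * Real.pi := by positivity
  rw [lt_div_iff₀ hp] at h4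
  unfold hw
  have h5 : 2 * (Real.pi * c / Real.log x) = c * (2 * Real.pi) / Real.log x := by ring
  rw [h5, div_lt_iff₀ hL]
  exact h4

theorem main_term_up (f : TF) {s ε : ℝ} (hs : 1 ≤ s) (hs2 : s ≤ 2) (hε : 0 < ε) :
    ∀ᶠ T : ℝ in atTop, ∀ t ∈ Icc T (2 * T), |Xs f.h s T t - (f.h 0 - pss f.h s T t)| ≤ ε := by
  obtain ⟨C, hC, hCb⟩ := MT_small
  obtain ⟨B, hB⟩ := isCompact_Icc.exists_bound_of_continuousOn
    (s := Icc (0:ℝ) (1 / 2)) (f := deriv (deriv f.h)) (d2_cont f).continuousOn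
  have hB0 : 0 ≤ B := (norm_nonneg _).trans (hB 0 ⟨le_rfl, by norm_num⟩)
  set K : ℝ := B * (|CM| / 2 + C) * (1 / 2) + 1 * |f.h 0| with hK
  have hK0 : 0 ≤ K := by positivity
  have hev : ∀ᶠ T : ℝ in atTop, 1 + K / ε ≤ Real.log T :=
    Real.tendsto_log_atTop.eventually_ge_atTop _
  filter_upwards [hev, eventually_gt_atTop 0] with T hT hT0
  intro t ht
  set L := Real.log T with hL
  have hs0 : 0 < s := by linarith
  have hKε : 0 ≤ K / ε := by positivity
  have hL1 : 1 ≤ L := by linarith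
  have hLK : K / ε ≤ L := by linarith
  have hL0 : 0 < L := by linarith
  have hsL : 0 < s * L := by positivity
  have ht0 : 0 < t := lt_of_lt_of_le hT0 ht.1
  have hlt1 : Real.log t ≤ L + 1 := by
    have h1 : Real.log t ≤ Real.log (2 * T) := Real.log_le_log ht0 ht.2
    rw [Real.log_mul (by norm_num) hT0.ne'] at h1
    have h2 : Real.log 2 ≤ 1 := by
      have := Real.log_two_lt_d9
      linarith
    linarith
  have hlt2 : L ≤ Real.log t := Real.log_le_log hT0 ht.1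
  have hlt0 : 0 ≤ Real.log t := by linarith
  have ht1 : 1 ≤ t := (Real.log_nonneg_iff ht0).mp hlt0
  have hlin : |Real.log t / L - 1| ≤ 1 / L := by
    rw [show Real.log t / L - 1 = (Real.log t - L) / L by field_simp, abs_div, abs_of_pos hL0]
    apply div_le_div_of_nonneg_right _ hL0.le
    rw [abs_le]; constructor <;> linarith
  -- pointwise bound
  have hpt : ∀ y ∈ Set.uIoc (0:ℝ) (1 / 2),
      ‖y * deriv (deriv f.h) y * (MT (s * L * y) t - Real.log t)‖ ≤ B * (|CM| / 2 + C / (s * L)) := by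
    intro y hy
    rw [uIoc_of_le (by norm_num)] at hy
    have hy0 : 0 < y := hy.1
    have hg := hB y ⟨hy.1.le, hy.2⟩
    have hLy : 0 < s * L * y := mul_pos hsL hy0
    have hkey : y * |MT (s * L * y) t - Real.log t| ≤ |CM| / 2 + C / (s * L) := by
      rcases le_total 1 (s * L * y) with h | h
      · have h2 : Real.exp (s * L * y / 2) ≤ t ^ 2 := by
          rw [← Real.exp_log (pow_pos ht0 2), Real.log_pow]
          apply Real.exp_le_exp.mpr
          have h3 : s * L * y ≤ 2 * L * (1 / 2) := by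
            apply mul_le_mul _ hy.2 hy0.le (by positivity)
            exact mul_le_mul_of_nonneg_right hs2 hL0.le
          push_cast
          linarith
        have h3 := MT_bound h ht1 h2
        have h4 : |MT (s * L * y) t - Real.log t| ≤ |CM| := h3.trans (le_abs_self _)
        calc y * |MT (s * L * y) t - Real.log t| ≤ (1 / 2) * |CM| := by
              apply mul_le_mul hy.2 h4 (abs_nonneg _) (by norm_num)
          _ ≤ |CM| / 2 + C / (s * L) := by
              have : 0 ≤ C / (s * L) := by positivity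
              linarith
      · have h3 := hCb (s * L * y) t hLy h ht1
        calc y * |MT (s * L * y) t - Real.log t| ≤ y * (C / (s * L * y)) := by gcongr
          _ = C / (s * L) := by field_simp
          _ ≤ |CM| / 2 + C / (s * L) := by linarith [abs_nonneg CM]
    rw [Real.norm_eq_abs, abs_mul, abs_mul, abs_of_pos hy0]
    rw [Real.norm_eq_abs] at hg
    calc y * |deriv (deriv f.h) y| * |MT (s * L * y) t - Real.log t|
        = |deriv (deriv f.h) y| * (y * |MT (s * L * y) t - Real.log t|) := by ring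
      _ ≤ B * (|CM| / 2 + C / (s * L)) := by
          apply mul_le_mul hg hkey (by positivity) hB0
  have hint := intervalIntegral.norm_integral_le_of_norm_le_const hpt
  have hI1 := mt_integrable f hsL t
  have hI2 : IntervalIntegrable (fun y => y * deriv (deriv f.h) y * Real.log t) volume 0 (1 / 2) :=
    ((continuous_id.mul (d2_cont f)).mul continuous_const).intervalIntegrable _ _
  have hsplit : (∫ y in (0:ℝ)..(1 / 2), y * deriv (deriv f.h) y * (MT (s * L * y) t - Real.log t))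
      = (∫ y in (0:ℝ)..(1 / 2), y * deriv (deriv f.h) y * MT (s * L * y) t) - f.h 0 * Real.log t := by
    have h1 : (∫ y in (0:ℝ)..(1 / 2), y * deriv (deriv f.h) y * (MT (s * L * y) t - Real.log t))
        = ∫ y in (0:ℝ)..(1 / 2), (y * deriv (deriv f.h) y * MT (s * L * y) t
          - y * deriv (deriv f.h) y * Real.log t) := by
      congr 1; ext y; ring
    rw [h1, intervalIntegral.integral_sub hI1 hI2, intervalIntegral.integral_mul_const]
    have h2 := taylor f (z := 0) (by norm_num)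
    simp only [sub_zero] at h2
    rw [h2]
  have hXf : Xs f.h s T t - (f.h 0 - pss f.h s T t)
      = 1 / L * (∫ y in (0:ℝ)..(1 / 2), y * deriv (deriv f.h) y * (MT (s * L * y) t - Real.log t))
        + (Real.log t / L - 1) * f.h 0 := by
    rw [hsplit]
    unfold Xs pss Xf
    rw [← hL]
    field_simp
    ring
  rw [hXf]
  have hA : |1 / L * (∫ y in (0:ℝ)..(1 / 2),
      y * deriv (deriv f.h) y * (MT (s * L * y) t - Real.log t))| ≤ B * (|CM| / 2 + C) * (1 / 2) / L := by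
    rw [abs_mul, abs_of_pos (by positivity : (0:ℝ) < 1 / L)]
    rw [Real.norm_eq_abs] at hint
    have h3 : C / (s * L) ≤ C := div_le_self hC.le (by nlinarith)
    have h4 : |(1 / 2 : ℝ) - 0| = 1 / 2 := by norm_num
    rw [h4] at hint
    have h5 : B * (|CM| / 2 + C / (s * L)) * (1 / 2) ≤ B * (|CM| / 2 + C) * (1 / 2) := by gcongr
    calc 1 / L * |∫ y in (0:ℝ)..(1 / 2), y * deriv (deriv f.h) y * (MT (s * L * y) t - Real.log t)|
        ≤ 1 / L * (B * (|CM| / 2 + C) * (1 / 2)) := by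
          gcongr; exact hint.trans h5
      _ = _ := by ring
  have hB2 : |(Real.log t / L - 1) * f.h 0| ≤ 1 * |f.h 0| / L := by
    rw [abs_mul]
    calc |Real.log t / L - 1| * |f.h 0| ≤ 1 / L * |f.h 0| := by gcongr
      _ = _ := by ring
  calc _ ≤ |1 / L * (∫ y in (0:ℝ)..(1 / 2), y * deriv (deriv f.h) y * (MT (s * L * y) t - Real.log t))|
        + |(Real.log t / L - 1) * f.h 0| := abs_add_le _ _
    _ ≤ B * (|CM| / 2 + C) * (1 / 2) / L + 1 * |f.h 0| / L := add_le_add hA hB2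
    _ = K / L := by rw [hK]; ring
    _ ≤ ε := by
        rw [div_le_iff₀ hL0]
        rw [div_le_iff₀ hε] at hLK
        linarith

theorem tail_loc (f : TF) {s b ε : ℝ} (hs : 1 ≤ s) (hs2 : s ≤ 2) (hb : 0 < b) (hb1 : b ≤ 1) (hε : 0 < ε) :
    ∀ᶠ x : ℝ in atTop, ∀ t ∈ Icc (x + x ^ b / 4) (x + 3 * x ^ b / 4), ∀ F : Finset ZS, (∀ ρ ∈ F, ρ ∉ ZJ x (x ^ b)) →
      ∑ ρ ∈ F, mx ρ * |kzs f.h s x t ρ| ≤ ε := by
  obtain ⟨m, hm⟩ : ∃ m : ℕ, 2 ≤ b * m := by
    obtain ⟨m, hm⟩ := exists_nat_ge (2 / b)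
    exact ⟨m, by rw [div_le_iff₀ hb] at hm; linarith⟩
  obtain ⟨C, hC, hker⟩ := ker_decay f (m + 2)
  have hs0 : 0 < s := by linarith
  have hCA : 0 ≤ CA := by
    have h := (abs_nonneg _).trans (Afun_bound 0)
    have h2 : Pool.Agent.Helper57.LH.wg 0 = 1 := by
      unfold Pool.Agent.Helper57.LH.wg
      simp
    rw [h2, mul_one] at h
    exact h
  filter_upwards [eventually_ge_atTop (Real.exp 1), eventually_ge_atTop (1:ℝ),
    (Real.tendsto_sqrt_atTop).eventually_ge_atTop (16 * C * 8 ^ m * CA / ε)] with x hTe hT1 hTb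
  intro t ht F hF
  have hT0 : 0 < x := by linarith
  have hH0 : 0 < x ^ b := Real.rpow_pos_of_pos hT0 b
  have hHx : x ^ b ≤ x := by
    calc x ^ b ≤ x ^ (1 : ℝ) := Real.rpow_le_rpow_of_exponent_le hT1 hb1
      _ = x := Real.rpow_one x
  have hL1 : 1 ≤ Real.log x := by
    rw [Real.le_log_iff_exp_le hT0]
    exact hTe
  set L := Real.log x with hL
  have hexp : Real.exp L = x := by rw [hL, Real.exp_log hT0]
  have hDm : x ^ 2 / 8 ^ m ≤ (x ^ b / 8) ^ m := by
    rw [div_pow]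
    apply div_le_div_of_nonneg_right _ (by positivity)
    rw [← Real.rpow_natCast (x ^ b) m, ← Real.rpow_mul hT0.le, ← Real.rpow_natCast x 2]
    apply Real.rpow_le_rpow_of_exponent_le hT1
    push_cast
    exact hm
  have hterm : ∀ ρ ∈ F, mx ρ * |kzs f.h s x t ρ| ≤ (8 * C * 8 ^ m / x) * fz ρ t := by
    intro ρ hρ
    have hre := zs_re ρ
    have hd : x ^ b / 8 ≤ |t - (ρ:ℂ).im| := by
      have hn := hF ρ hρ
      rw [mem_ZJ hT0.le hH0.le, not_and_or, not_le, not_le] at hn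
      rcases hn with h | h
      · rw [abs_of_nonneg (by linarith [ht.1])]
        linarith [ht.1]
      · rw [abs_sub_comm, abs_of_nonneg (by linarith [ht.2])]
        linarith [ht.2]
    set d := |t - (ρ:ℂ).im| with hdd
    have hd0 : 0 < d := lt_of_lt_of_le (by positivity) hd
    have hk := hker (s * L * ((ρ:ℂ).re - 1 / 2)) (s * L * (t - (ρ:ℂ).im))
    have hsL1 : 1 ≤ s * L := by nlinarith
    have hsL0 : 0 ≤ s * L := by linarith
    have ha : |s * L * ((ρ:ℂ).re - 1 / 2)| ≤ L := by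
      rw [abs_mul, abs_of_nonneg hsL0]
      have h1 : |(ρ:ℂ).re - 1 / 2| ≤ 1 / 2 := by
        rw [abs_le]
        constructor <;> linarith
      calc s * L * |(ρ:ℂ).re - 1 / 2| ≤ (2 * L) * (1 / 2) := by
            apply mul_le_mul _ h1 (abs_nonneg _) (by linarith)
            exact mul_le_mul_of_nonneg_right hs2 (by linarith)
        _ = L := by ring
    have hu : d ≤ |s * L * (t - (ρ:ℂ).im)| := by
      rw [abs_mul, abs_of_nonneg hsL0, ← hdd]
      nlinarith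
    have h4 : (x ^ 2 / 8 ^ m) * (1 + d ^ 2) ≤ (1 + |s * L * (t - (ρ:ℂ).im)|) ^ (m + 2) := by
      have h5 : (1 + d) ^ (m + 2) ≤ (1 + |s * L * (t - (ρ:ℂ).im)|) ^ (m + 2) := by
        apply pow_le_pow_left₀ (by linarith)
        linarith
      have h6 : x ^ 2 / 8 ^ m ≤ (1 + d) ^ m := by
        refine hDm.trans ?_
        apply pow_le_pow_left₀ (by positivity)
        linarith
      have h7 : 1 + d ^ 2 ≤ (1 + d) ^ 2 := by nlinarith
      calc (x ^ 2 / 8 ^ m) * (1 + d ^ 2) ≤ (1 + d) ^ m * (1 + d) ^ 2 := by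
            apply mul_le_mul h6 h7 (by positivity) (by positivity)
        _ = (1 + d) ^ (m + 2) := by ring
        _ ≤ _ := h5
    have hpos : 0 < (x ^ 2 / 8 ^ m) * (1 + d ^ 2) := by positivity
    have hkz : |kz f.h (s * L) t ρ| ≤ C * x / ((x ^ 2 / 8 ^ m) * (1 + d ^ 2)) := by
      unfold kz
      refine hk.trans ?_
      apply div_le_div₀ (by positivity) _ hpos h4
      apply mul_le_mul_of_nonneg_left _ hC.le
      rw [← hexp]
      exact Real.exp_le_exp.2 ha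
    have hkzs : |kzs f.h s x t ρ| ≤ 2 * (C * x / ((x ^ 2 / 8 ^ m) * (1 + d ^ 2))) := by
      unfold kzs
      rw [abs_mul, abs_of_pos hs0, ← hL]
      exact mul_le_mul hs2 hkz (abs_nonneg _) (by norm_num)
    have hfz : mx ρ / (1 + d ^ 2) ≤ 4 * fz ρ t := by
      unfold fz
      have hm := mx_nonneg (ρ : ℂ)
      have hsq : (t - (ρ:ℂ).im) ^ 2 = d ^ 2 := by rw [hdd, sq_abs]
      rw [hsq]
      have h8 : 1 / (1 + d ^ 2) ≤ 4 * ((2 - (ρ:ℂ).re) / ((2 - (ρ:ℂ).re) ^ 2 + d ^ 2)) := by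
        rw [← mul_div_assoc, div_le_div_iff₀ (by positivity) (by
          have : 0 < (2 - (ρ:ℂ).re) ^ 2 := by
            apply pow_pos; linarith
          positivity)]
        have h9 : (2 - (ρ:ℂ).re) ^ 2 ≤ 4 := by nlinarith
        have h10 : 1 ≤ 2 - (ρ:ℂ).re := by linarith
        nlinarith [sq_nonneg d, mul_nonneg (sq_nonneg d) (by linarith : (0:ℝ) ≤ 2 - (ρ:ℂ).re - 1)]
      calc mx ρ / (1 + d ^ 2) = mx ρ * (1 / (1 + d ^ 2)) := by ring
        _ ≤ mx ρ * (4 * ((2 - (ρ:ℂ).re) / ((2 - (ρ:ℂ).re) ^ 2 + d ^ 2))) :=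
            mul_le_mul_of_nonneg_left h8 hm
        _ = _ := by ring
    calc mx ρ * |kzs f.h s x t ρ| ≤ mx ρ * (2 * (C * x / ((x ^ 2 / 8 ^ m) * (1 + d ^ 2)))) :=
          mul_le_mul_of_nonneg_left hkzs (mx_nonneg _)
      _ = (2 * C * 8 ^ m / x) * (mx ρ / (1 + d ^ 2)) := by
          have h1d : (1 + d ^ 2) ≠ 0 := by positivity
          field_simp
      _ ≤ (2 * C * 8 ^ m / x) * (4 * fz ρ t) := by
          apply mul_le_mul_of_nonneg_left hfz
          positivity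
      _ = _ := by ring
  have hsum := Finset.sum_le_sum hterm
  rw [← Finset.mul_sum] at hsum
  refine hsum.trans ?_
  have hA : ∑ ρ ∈ F, fz ρ t ≤ CA * Real.sqrt (1 + |t|) := by
    refine (sum_le_hasSum F (fun i _ => fz_nonneg i t) (fz_hasSum t)).trans ?_
    exact (le_abs_self _).trans (Afun_bound t)
  have ht0 : 0 ≤ t := by linarith [ht.1]
  have htT : t ≤ 2 * x := by linarith [ht.2]
  have hsT : 0 < Real.sqrt x := Real.sqrt_pos.mpr hT0
  have hs1 : Real.sqrt (1 + |t|) ≤ 2 * Real.sqrt x := by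
    rw [abs_of_nonneg ht0, Real.sqrt_le_left (by positivity), mul_pow, Real.sq_sqrt hT0.le]
    linarith
  have hsq : Real.sqrt x * Real.sqrt x = x := Real.mul_self_sqrt hT0.le
  calc (8 * C * 8 ^ m / x) * ∑ ρ ∈ F, fz ρ t
      ≤ (8 * C * 8 ^ m / x) * (CA * (2 * Real.sqrt x)) := by
        apply mul_le_mul_of_nonneg_left _ (by positivity)
        exact hA.trans (mul_le_mul_of_nonneg_left hs1 hCA)
    _ = 16 * C * 8 ^ m * CA * Real.sqrt x / x := by
        field_simp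
        ring
    _ = 16 * C * 8 ^ m * CA / Real.sqrt x := by
        rw [div_eq_div_iff (by positivity) (by positivity)]
        rw [mul_assoc _ (Real.sqrt x), hsq]
    _ ≤ ε := by
        rw [div_le_iff₀ (by positivity)]
        rw [div_le_iff₀ (by positivity)] at hTb
        linarith

theorem dev_loc {c : ℝ} (hc : 0 < c) (f : TF) {s b ε : ℝ} (hs : 1 ≤ s) (hs2 : s ≤ 2) (hb : 0 < b) (hb1 : b ≤ 1)
    (hε : 0 < ε) : ∀ᶠ x : ℝ in atTop, NCl c x (x ^ b) → ∀ t ∈ Icc (x + x ^ b / 4) (x + 3 * x ^ b / 4),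
    |Xs f.h s x t - ZsJ f.h s x (x ^ b) t| ≤ ε := by
  classical
  filter_upwards [tail_loc f hs hs2 hb hb1 hε, eventually_gt_atTop 1] with x hT hT1
  intro hN t ht
  have hx0 : 0 < x := by linarith
  have hH0 : 0 < x ^ b := Real.rpow_pos_of_pos hx0 b
  have htail := hT t ht
  have hsl := explicit_s f hs hT1 t
  have h2 : ∑ ρ ∈ ZJ x (x ^ b), mx ρ * kzs f.h s x t ρ = ZsJ f.h s x (x ^ b) t := by
    unfold ZsJ
    refine Finset.sum_congr rfl fun ρ hρ => ?_
    obtain ⟨h1, h2⟩ := (mem_ZJ hx0.le hH0.le).mp hρ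
    obtain ⟨h4, h5, _⟩ := loc_props hc hN h1 h2
    rw [h5, one_mul]
    unfold kzs krs kz
    rw [h4, sub_self, mul_zero]
  rw [← h2]
  have hlim : Tendsto (fun F : Finset ZS => |(∑ ρ ∈ F, mx ρ * kzs f.h s x t ρ) - ∑ ρ ∈ ZJ x (x ^ b), mx ρ * kzs f.h s x t ρ|)
      atTop (𝓝 |Xs f.h s x t - ∑ ρ ∈ ZJ x (x ^ b), mx ρ * kzs f.h s x t ρ|) :=
    (hsl.sub_const _).abs
  refine le_of_tendsto hlim ?_
  filter_upwards [eventually_ge_atTop (ZJ x (x ^ b))] with F hF
  rw [← Finset.sum_sdiff hF, add_sub_cancel_right]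
  calc |∑ ρ ∈ F \ ZJ x (x ^ b), mx ρ * kzs f.h s x t ρ| ≤ ∑ ρ ∈ F \ ZJ x (x ^ b), |mx ρ * kzs f.h s x t ρ| :=
        Finset.abs_sum_le_sum_abs _ _
    _ = ∑ ρ ∈ F \ ZJ x (x ^ b), mx ρ * |kzs f.h s x t ρ| := by
        refine Finset.sum_congr rfl fun ρ _ => ?_
        rw [abs_mul, abs_of_nonneg (mx_nonneg _)]
    _ ≤ ε := htail _ (fun ρ hρ => (Finset.mem_sdiff.mp hρ).2)

theorem wt_supp (g : TF) (hg : g.th = 1 / 4) {x H : ℝ} (hH : 0 < H) (t : ℝ) (h : wt g.h x H t ≠ 0) :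
    t ∈ Icc (x + H / 4) (x + 3 * H / 4) := by
  unfold wt at h
  have h1 : |(t - x) / H - 1 / 2| < 1 / 4 := by
    by_contra hcc
    rw [not_lt, ← hg] at hcc
    exact h (g.supp _ hcc)
  rw [abs_lt] at h1
  have h2 : (t - x) / H * H = t - x := div_mul_cancel₀ _ hH.ne'
  constructor <;> nlinarith [h1.1, h1.2]

theorem wt_hcs (g : TF) (hg : g.th = 1 / 4) {x H : ℝ} (hH : 0 < H) : HasCompactSupport (fun t => wt g.h x H t) := by
  refine HasCompactSupport.of_support_subset_isCompact (isCompact_Icc (a := x + H / 4) (b := x + 3 * H / 4)) ?_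
  intro t ht
  exact wt_supp g hg hH t ht

theorem wt_mul_integrable (g : TF) (hg : g.th = 1 / 4) {x H : ℝ} (hH : 0 < H) {G : ℝ → ℝ} (hG : Continuous G) :
    Integrable (fun t => wt g.h x H t * G t) :=
  ((wt_cont g x H).mul hG).integrable_of_hasCompactSupport (wt_hcs g hg hH).mul_right

theorem ZsJ_cont (f : TF) (s x H : ℝ) : Continuous (fun t => ZsJ f.h s x H t) := by
  unfold ZsJ krs
  refine continuous_finsetSum _ fun ρ _ => continuous_const.mul ?_
  exact (ker_cont f 0).comp (by fun_prop)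

theorem transfer_loc {c : ℝ} (hc : 0 < c) (g f : TF) (hg : g.th = 1 / 4) (hg0 : ∀ x, 0 ≤ g.h x)
    {s b : ℝ} (hs : 1 ≤ s) (hs2 : s ≤ 2) (hb : 0 < b) (hb1 : b ≤ 1)
    (F : ℝ → ℝ → ℝ) (hFc : ∀ T, Continuous (F T)) (hF0 : ∀ T t, 0 ≤ F T t)
    {ε : ℝ} (hε : 0 < ε) : ∀ᶠ x : ℝ in atTop, NCl c x (x ^ b) →
      |(∫ t, wt g.h x (x ^ b) t * (F x t * ZsJ f.h s x (x ^ b) t)) -
        ∫ t, wt g.h x (x ^ b) t * (F x t * (f.h 0 - pss f.h s x t))| ≤ ε * ∫ t, wt g.h x (x ^ b) t * F x t := by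
  have he : 0 < ε / 2 := by positivity
  filter_upwards [dev_loc hc f hs hs2 hb hb1 he, main_term_up f hs hs2 he, eventually_gt_atTop 1]
    with x h4 h5 hT hN
  have hT0 : 0 < x := by linarith
  have hH0 : 0 < x ^ b := Real.rpow_pos_of_pos hT0 b
  have hHx : x ^ b ≤ x := by
    calc x ^ b ≤ x ^ (1 : ℝ) := Real.rpow_le_rpow_of_exponent_le hT.le hb1
      _ = x := Real.rpow_one x
  have h4' := h4 hN
  have hom0 : ∀ t, 0 ≤ wt g.h x (x ^ b) t := fun t => hg0 _
  have hpc := pss_cont f.h s x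
  have i1 : Integrable (fun t => wt g.h x (x ^ b) t * F x t) := wt_mul_integrable g hg hH0 (hFc x)
  have i2 : Integrable (fun t => wt g.h x (x ^ b) t * (F x t * ZsJ f.h s x (x ^ b) t)) :=
    wt_mul_integrable g hg hH0 ((hFc x).mul (ZsJ_cont f s x _))
  have i3 : Integrable (fun t => wt g.h x (x ^ b) t * (F x t * (f.h 0 - pss f.h s x t))) :=
    wt_mul_integrable g hg hH0 ((hFc x).mul (continuous_const.sub hpc))
  have hpt : ∀ t, ‖wt g.h x (x ^ b) t * (F x t * ZsJ f.h s x (x ^ b) t) -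
      wt g.h x (x ^ b) t * (F x t * (f.h 0 - pss f.h s x t))‖ ≤ ε * (wt g.h x (x ^ b) t * F x t) := by
    intro t
    have h0 := hom0 t
    have hF0' := hF0 x t
    rw [← mul_sub, ← mul_sub, norm_mul, norm_mul, Real.norm_eq_abs, Real.norm_eq_abs, Real.norm_eq_abs,
      abs_of_nonneg h0, abs_of_nonneg hF0']
    by_cases hz : wt g.h x (x ^ b) t = 0
    · rw [hz, zero_mul, zero_mul, mul_zero]
    · have htI := wt_supp g hg hH0 t hz
      have h9 := h4' t htI
      have h10 := h5 t ⟨by linarith [htI.1], by linarith [htI.2]⟩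
      have h11 : |ZsJ f.h s x (x ^ b) t - (f.h 0 - pss f.h s x t)| ≤ ε := by
        have h12 := abs_le.mp h9
        have h13 := abs_le.mp h10
        rw [abs_le]
        constructor <;> linarith [h12.1, h12.2, h13.1, h13.2]
      calc wt g.h x (x ^ b) t * (F x t * |ZsJ f.h s x (x ^ b) t - (f.h 0 - pss f.h s x t)|) ≤
          wt g.h x (x ^ b) t * (F x t * ε) := by gcongr
        _ = ε * (wt g.h x (x ^ b) t * F x t) := by ring
  rw [← integral_sub i2 i3, ← Real.norm_eq_abs]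
  refine (norm_integral_le_of_norm_le (i1.const_mul ε) (Eventually.of_forall hpt)).trans ?_
  rw [integral_const_mul]

/-- the number of zeros in the window -/
theorem card_loc {c x H : ℝ} (hc : 0 < c) (hx : 1 < x) (hH : 0 ≤ H) (hw1 : hw c x ≤ 1) (h : NCl c x H) :
    ((ZJ x H).card : ℝ) * (2 * hw c x) ≤ H + 2 := by
  have hL : 0 < Real.log x := Real.log_pos hx
  have hw0 : 0 < hw c x := by unfold hw; positivity
  set A : ZS → Set ℝ := fun ρ => Ioc ((ρ : ℂ).im - hw c x) ((ρ : ℂ).im + hw c x) with hA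
  have hsub : (⋃ ρ ∈ ZJ x H, A ρ) ⊆ Icc (x - 1) (x + H + 1) := by
    intro t ht
    rw [mem_iUnion₂] at ht
    obtain ⟨ρ, hρ, h1, h2⟩ := ht
    obtain ⟨h3, h4⟩ := (mem_ZJ (by linarith) hH).mp hρ
    constructor <;> linarith
  have hdisj : Set.Pairwise (↑(ZJ x H)) (Function.onFun Disjoint A) := by
    intro ρ hρ ρ' hρ' hne
    rw [Function.onFun, Set.disjoint_left]
    intro t h1 h2
    have h3 := loc_sep hc hx hH h (Finset.mem_coe.1 hρ) (Ne.symm hne)
    have h4 : |(ρ : ℂ).im - (ρ' : ℂ).im| ≤ 2 * hw c x := by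
      rw [abs_le]
      constructor <;> linarith [h1.1, h1.2, h2.1, h2.2]
    linarith
  have h1 : (volume (⋃ ρ ∈ ZJ x H, A ρ)).toReal = ∑ ρ ∈ ZJ x H, (volume (A ρ)).toReal := by
    rw [measure_biUnion_finset hdisj (fun ρ _ => measurableSet_Ioc), ENNReal.toReal_sum]
    intro ρ _
    rw [hA]
    simp
  have h2 : ∀ ρ ∈ ZJ x H, (volume (A ρ)).toReal = 2 * hw c x := by
    intro ρ _
    rw [hA]
    simp only [Real.volume_Ioc]
    rw [ENNReal.toReal_ofReal (by linarith)]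
    ring
  rw [Finset.sum_congr rfl h2, Finset.sum_const, nsmul_eq_mul] at h1
  rw [← h1]
  have h3 : (volume (⋃ ρ ∈ ZJ x H, A ρ)).toReal ≤ (volume (Icc (x - 1) (x + H + 1))).toReal :=
    ENNReal.toReal_mono (by simp) (measure_mono hsub)
  refine h3.trans ?_
  rw [Real.volume_Icc, ENNReal.toReal_ofReal (by linarith)]
  linarith

private lemma loc_gi : Integrable (fun v : ℝ => 1 / (1 + |v|) ^ 2) := by
  have h := integrable_one_add_norm (E := ℝ) (μ := volume) (r := 2) (by simp)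
  refine h.congr (Eventually.of_forall fun v => ?_)
  have h1 : (0 : ℝ) ≤ 1 + |v| := by positivity
  simp only [Real.norm_eq_abs]
  rw [Real.rpow_neg h1]
  norm_num

/-- the first absolute moment of the kernel -/
theorem loc_moment (f : TF) {s : ℝ} (hs : 1 ≤ s) : ∃ C : ℝ, 0 < C ∧ ∀ T : ℝ, 1 < T → ∀ γ : ℝ,
    Integrable (fun t => |t - γ| * |krs f.h s T (t - γ)|) ∧
    ∫ t, |t - γ| * |krs f.h s T (t - γ)| ≤ C / Real.log T ^ 2 := by
  obtain ⟨C, hC, hk⟩ := ker_decay f 3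
  have hI0 : 0 ≤ ∫ v : ℝ, 1 / (1 + |v|) ^ 2 := integral_nonneg fun v => by positivity
  refine ⟨C * (∫ v : ℝ, 1 / (1 + |v|) ^ 2) + 1, by positivity, fun T hT γ => ?_⟩
  have hL : 0 < Real.log T := Real.log_pos hT
  set L := Real.log T with hLdef
  have hb : ∀ u : ℝ, |u| * |krs f.h s T u| ≤ C / L * (1 / (1 + |L * u|) ^ 2) := by
    intro u
    have h1 := hk 0 (s * L * u)
    rw [abs_zero, Real.exp_zero, mul_one] at h1
    have h2 : |krs f.h s T u| = s * |ker f.h 0 (s * L * u)| := by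
      unfold krs
      rw [abs_mul, abs_of_nonneg (by linarith : (0 : ℝ) ≤ s)]
    have h3 : |s * L * u| = s * |L * u| := by
      rw [mul_assoc, abs_mul, abs_of_nonneg (by linarith : (0 : ℝ) ≤ s)]
    have h4 : |L * u| = L * |u| := by rw [abs_mul, abs_of_pos hL]
    rw [h3] at h1
    have hu := abs_nonneg u
    have hLu : 0 ≤ L * |u| := by positivity
    have h5 : L * |u| ≤ s * (L * |u|) := by nlinarith
    rw [h2, h4]
    rw [h4] at h1
    have h6 : s * |ker f.h 0 (s * L * u)| ≤ s * (C / (1 + s * (L * |u|)) ^ 3) :=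
      mul_le_mul_of_nonneg_left h1 (by linarith)
    have h7 : |u| * (s * (C / (1 + s * (L * |u|)) ^ 3)) ≤ C / L * (1 / (1 + L * |u|) ^ 2) := by
      rw [div_mul_div_comm, mul_one, ← mul_div_assoc, ← mul_div_assoc, div_le_div_iff₀ (by positivity) (by positivity)]
      have h8 : (1 + L * |u|) ^ 2 ≤ (1 + s * (L * |u|)) ^ 2 := by gcongr
      have h9 : s * (L * |u|) ≤ 1 + s * (L * |u|) := by linarith
      calc |u| * (s * C) * (L * (1 + L * |u|) ^ 2) = C * ((s * (L * |u|)) * (1 + L * |u|) ^ 2) := by ring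
        _ ≤ C * ((1 + s * (L * |u|)) * (1 + s * (L * |u|)) ^ 2) := by
          apply mul_le_mul_of_nonneg_left _ hC.le
          exact mul_le_mul h9 h8 (by positivity) (by positivity)
        _ = C * (1 + s * (L * |u|)) ^ 3 := by ring
    exact (mul_le_mul_of_nonneg_left h6 hu).trans h7
  have hgi : Integrable (fun u : ℝ => C / L * (1 / (1 + |L * u|) ^ 2)) :=
    ((loc_gi.comp_mul_left' hL.ne')).const_mul _
  have hcont : Continuous (fun u => |u| * |krs f.h s T u|) :=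
    continuous_abs.mul (continuous_abs.comp (krs_cont f s T))
  have hint : Integrable (fun u => |u| * |krs f.h s T u|) := by
    refine hgi.mono' hcont.aestronglyMeasurable (Eventually.of_forall fun u => ?_)
    rw [Real.norm_eq_abs, abs_of_nonneg (by positivity)]
    exact hb u
  refine ⟨hint.comp_sub_right γ, ?_⟩
  have e1 : ∫ t, |t - γ| * |krs f.h s T (t - γ)| = ∫ u, |u| * |krs f.h s T u| :=
    integral_sub_right_eq_self (fun u => |u| * |krs f.h s T u|) γ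
  rw [e1]
  have e2 : ∫ u, |u| * |krs f.h s T u| ≤ ∫ u, C / L * (1 / (1 + |L * u|) ^ 2) := integral_mono hint hgi hb
  have e3 : ∫ u, C / L * (1 / (1 + |L * u|) ^ 2) = C * (∫ v : ℝ, 1 / (1 + |v|) ^ 2) / L ^ 2 := by
    rw [integral_const_mul]
    have := Measure.integral_comp_mul_left (fun v : ℝ => 1 / (1 + |v|) ^ 2) L
    rw [this, abs_of_pos (inv_pos.mpr hL), smul_eq_mul]
    field_simp
  rw [e3] at e2
  refine e2.trans ?_
  gcongr
  linarith

theorem loc_lip (g : TF) : ∃ K : ℝ, 0 ≤ K ∧ ∀ x y : ℝ, |g.h x - g.h y| ≤ K * |x - y| := by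
  obtain ⟨C, hC⟩ := ContDiff.lipschitzWith_of_hasCompactSupport (mv_hcs g) g.smooth (by simp)
  refine ⟨C, C.2, fun x y => ?_⟩
  have := hC.dist_le_mul x y
  simpa [Real.dist_eq] using this

theorem wt_lip (g : TF) : ∃ K : ℝ, 0 ≤ K ∧ ∀ x H : ℝ, 0 < H → ∀ t u : ℝ, |wt g.h x H t - wt g.h x H u| ≤ K / H * |u - t| := by
  obtain ⟨K, hK, hlip⟩ := loc_lip g
  refine ⟨K, hK, fun x H hH t u => ?_⟩
  unfold wt
  refine (hlip _ _).trans ?_
  have e4 : (t - x) / H - 1 / 2 - ((u - x) / H - 1 / 2) = -(u - t) / H := by ring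
  rw [e4, abs_div, abs_neg, abs_of_pos hH]
  exact le_of_eq (by ring)

theorem pow_ev2 (K : ℝ) {κ b ε : ℝ} (hκ : κ < b) (hε : 0 < ε) : ∀ᶠ x : ℝ in atTop, K * x ^ κ ≤ ε * x ^ b := by
  have h := tendsto_rpow_neg_atTop (y := b - κ) (by linarith)
  have h2 := h.const_mul K
  rw [mul_zero] at h2
  filter_upwards [h2.eventually (gt_mem_nhds hε), eventually_gt_atTop (0 : ℝ)] with x hT h0
  have e : x ^ κ = x ^ (-(b - κ)) * x ^ b := by
    rw [← Real.rpow_add h0]
    congr 1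
    ring
  rw [e, ← mul_assoc]
  exact mul_le_mul_of_nonneg_right hT.le (Real.rpow_nonneg h0.le _)

theorem swap_loc {c : ℝ} (hc : 0 < c) (g f : TF) (hg : g.th = 1 / 4) {s b : ℝ} (hs : 1 ≤ s) (hb : 0 < b)
    (F : ℝ → ℝ → ℝ) (hFc : ∀ T, Continuous (F T))
    (hFb : ∃ κ C0 : ℝ, κ < b ∧ ∀ᶠ T : ℝ in atTop, ∀ t, |F T t| ≤ C0 * T ^ κ) {ε : ℝ} (hε : 0 < ε) : ∀ᶠ x : ℝ in atTop,
    NCl c x (x ^ b) →
    |(∑ ρ ∈ ZJ x (x ^ b), wt g.h x (x ^ b) (ρ : ℂ).im * ∫ t, F x t * krs f.h s x (t - (ρ : ℂ).im)) -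
      ∫ t, wt g.h x (x ^ b) t * (F x t * ZsJ f.h s x (x ^ b) t)| ≤ ε * x ^ b := by
  obtain ⟨κ, C0, hκ, hF⟩ := hFb
  obtain ⟨K, hK, hlip⟩ := wt_lip g
  obtain ⟨C, hC, hmom⟩ := loc_moment f hs
  have hwev : ∀ᶠ x : ℝ in atTop, Real.pi * c ≤ Real.log x := Real.tendsto_log_atTop.eventually_ge_atTop _
  filter_upwards [pow_ev2 (3 / (2 * Real.pi * c) * (C0 * K * C)) hκ hε, eventually_ge_atTop (Real.exp 1), hF, hwev]
    with x hT hTe hFA0 hwl hN
  have hT1 : 1 < x := lt_of_lt_of_le (by simpa using Real.add_one_lt_exp (x := 1) one_ne_zero |>.trans_le' (by norm_num)) hTe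
  have hT0 : 0 < x := by linarith
  have hH0 : 0 < x ^ b := Real.rpow_pos_of_pos hT0 b
  have hH1 : 1 ≤ x ^ b := Real.one_le_rpow hT1.le hb.le
  have hL1 : 1 ≤ Real.log x := by
    rw [← Real.log_exp 1]
    exact Real.log_le_log (Real.exp_pos 1) hTe
  have hw1 : hw c x ≤ 1 := by unfold hw; rwa [div_le_one (by linarith)]
  have hcard := card_loc hc hT1 hH0.le hw1 hN
  set A := C0 * x ^ κ with hA
  have hFA : ∀ t, |F x t| ≤ A := hFA0
  have hA0 : 0 ≤ A := (abs_nonneg _).trans (hFA 0)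
  have hkc : ∀ γ : ℝ, Continuous (fun t => krs f.h s x (t - γ)) := fun γ =>
    (krs_cont f s x).comp (continuous_id.sub continuous_const)
  have hki : ∀ γ : ℝ, Integrable (fun t => krs f.h s x (t - γ)) := fun γ =>
    (krs_integrable f hs hT1).comp_sub_right γ
  have hi1 : ∀ γ : ℝ, Integrable (fun t => F x t * krs f.h s x (t - γ)) := by
    intro γ
    refine ((hki γ).abs.const_mul A).mono' ((hFc x).mul (hkc γ)).aestronglyMeasurable
      (Eventually.of_forall fun t => ?_)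
    rw [Real.norm_eq_abs, abs_mul]
    exact mul_le_mul_of_nonneg_right (hFA t) (abs_nonneg _)
  have hi2 : ∀ γ : ℝ, Integrable (fun t => wt g.h x (x ^ b) t * (F x t * krs f.h s x (t - γ))) := by
    intro γ
    exact wt_mul_integrable g hg hH0 ((hFc x).mul (hkc γ))
  have e1 : ∫ t, wt g.h x (x ^ b) t * (F x t * ZsJ f.h s x (x ^ b) t) =
      ∑ ρ ∈ ZJ x (x ^ b), ∫ t, wt g.h x (x ^ b) t * (F x t * krs f.h s x (t - (ρ : ℂ).im)) := by
    rw [← integral_finsetSum _ (fun ρ _ => hi2 _)]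
    congr 1
    ext t
    unfold ZsJ
    rw [Finset.mul_sum, Finset.mul_sum]
  have hone : ∀ γ : ℝ, |wt g.h x (x ^ b) γ * (∫ t, F x t * krs f.h s x (t - γ)) -
      ∫ t, wt g.h x (x ^ b) t * (F x t * krs f.h s x (t - γ))| ≤ A * (K / x ^ b) * (C / Real.log x ^ 2) := by
    intro γ
    rw [← integral_const_mul, ← integral_sub ((hi1 γ).const_mul _) (hi2 γ)]
    have hm := hmom x hT1 γ
    calc |∫ t, (wt g.h x (x ^ b) γ * (F x t * krs f.h s x (t - γ)) - wt g.h x (x ^ b) t * (F x t * krs f.h s x (t - γ)))|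
        ≤ ∫ t, |wt g.h x (x ^ b) γ * (F x t * krs f.h s x (t - γ)) - wt g.h x (x ^ b) t * (F x t * krs f.h s x (t - γ))| :=
          abs_integral_le_integral_abs
      _ ≤ ∫ t, A * (K / x ^ b) * (|t - γ| * |krs f.h s x (t - γ)|) := by
          refine integral_mono (((hi1 γ).const_mul _).sub (hi2 γ)).abs (hm.1.const_mul _) fun t => ?_
          have e2 : wt g.h x (x ^ b) γ * (F x t * krs f.h s x (t - γ)) - wt g.h x (x ^ b) t * (F x t * krs f.h s x (t - γ)) =
              (wt g.h x (x ^ b) γ - wt g.h x (x ^ b) t) * F x t * krs f.h s x (t - γ) := by ring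
          have e3 : |wt g.h x (x ^ b) γ - wt g.h x (x ^ b) t| ≤ K / x ^ b * |t - γ| := hlip x (x ^ b) hH0 γ t
          simp only [e2, abs_mul]
          calc |wt g.h x (x ^ b) γ - wt g.h x (x ^ b) t| * |F x t| * |krs f.h s x (t - γ)|
              ≤ (K / x ^ b * |t - γ|) * A * |krs f.h s x (t - γ)| := by
                apply mul_le_mul_of_nonneg_right _ (abs_nonneg _)
                exact mul_le_mul e3 (hFA t) (abs_nonneg _) (by positivity)
            _ = A * (K / x ^ b) * (|t - γ| * |krs f.h s x (t - γ)|) := by ring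
      _ = A * (K / x ^ b) * ∫ t, |t - γ| * |krs f.h s x (t - γ)| := integral_const_mul _ _
      _ ≤ A * (K / x ^ b) * (C / Real.log x ^ 2) := mul_le_mul_of_nonneg_left hm.2 (by positivity)
  have hcard2 : ((ZJ x (x ^ b)).card : ℝ) ≤ 3 / (2 * Real.pi * c) * (x ^ b * Real.log x) := by
    unfold hw at hcard
    have h1 : ((ZJ x (x ^ b)).card : ℝ) * (2 * (Real.pi * c / Real.log x)) ≤ 3 * x ^ b := by linarith
    have h2 : ((ZJ x (x ^ b)).card : ℝ) = ((ZJ x (x ^ b)).card : ℝ) * (2 * (Real.pi * c / Real.log x)) *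
        (Real.log x / (2 * Real.pi * c)) := by
      field_simp
    rw [h2]
    calc ((ZJ x (x ^ b)).card : ℝ) * (2 * (Real.pi * c / Real.log x)) * (Real.log x / (2 * Real.pi * c)) ≤
        3 * x ^ b * (Real.log x / (2 * Real.pi * c)) := by gcongr
      _ = _ := by ring
  rw [e1, ← Finset.sum_sub_distrib]
  calc |∑ ρ ∈ ZJ x (x ^ b), (wt g.h x (x ^ b) (ρ : ℂ).im * (∫ t, F x t * krs f.h s x (t - (ρ : ℂ).im)) -
        ∫ t, wt g.h x (x ^ b) t * (F x t * krs f.h s x (t - (ρ : ℂ).im)))|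
      ≤ ∑ ρ ∈ ZJ x (x ^ b), |wt g.h x (x ^ b) (ρ : ℂ).im * (∫ t, F x t * krs f.h s x (t - (ρ : ℂ).im)) -
        ∫ t, wt g.h x (x ^ b) t * (F x t * krs f.h s x (t - (ρ : ℂ).im))| := Finset.abs_sum_le_sum_abs _ _
    _ ≤ ∑ _ρ ∈ ZJ x (x ^ b), A * (K / x ^ b) * (C / Real.log x ^ 2) := Finset.sum_le_sum fun ρ _ => hone _
    _ = ((ZJ x (x ^ b)).card : ℝ) * (A * (K / x ^ b) * (C / Real.log x ^ 2)) := by rw [Finset.sum_const, nsmul_eq_mul]
    _ ≤ (3 / (2 * Real.pi * c) * (x ^ b * Real.log x)) * (A * (K / x ^ b) * (C / Real.log x ^ 2)) :=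
        mul_le_mul_of_nonneg_right hcard2 (by positivity)
    _ = (3 / (2 * Real.pi * c) * (A * K * C)) / Real.log x := by
        field_simp
    _ ≤ 3 / (2 * Real.pi * c) * (A * K * C) := div_le_self (by positivity) hL1
    _ = 3 / (2 * Real.pi * c) * (C0 * K * C) * x ^ κ := by rw [hA]; ring
    _ ≤ ε * x ^ b := hT

theorem upper_loc {c : ℝ} (hc : 0 < c) (g : TF) (hg : g.th = 1 / 4) (hg0 : ∀ x, 0 ≤ g.h x) {b : ℝ} (hb : 0 < b)
    (F : ℝ → ℝ → ℝ) (hFc : ∀ T, Continuous (F T)) (hF0 : ∀ T t, 0 ≤ F T t)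
    (hFb : ∃ κ C0 : ℝ, κ < b ∧ ∀ᶠ T : ℝ in atTop, ∀ t, |F T t| ≤ C0 * T ^ κ)
    {ε : ℝ} (hε : 0 < ε) : ∀ᶠ x : ℝ in atTop, NCl c x (x ^ b) →
    ∑ ρ ∈ ZJ x (x ^ b), wt g.h x (x ^ b) (ρ : ℂ).im * (∫ t in ((ρ : ℂ).im - hw c x)..((ρ : ℂ).im + hw c x), F x t) ≤
      (∫ t, wt g.h x (x ^ b) t * F x t) + ε * x ^ b := by
  obtain ⟨κ, C0, hκ, hFb⟩ := hFb
  obtain ⟨K, hK0, hKd⟩ := wt_lip g
  have hlog : ∀ᶠ T : ℝ in atTop, Real.pi * c ≤ Real.log T :=
    Real.tendsto_log_atTop.eventually_ge_atTop _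
  filter_upwards [pow_ev2 (3 * (K : ℝ) * C0) hκ hε, hlog, eventually_gt_atTop 2, hFb] with x hp hl hT2 hFb hN
  have hT : 1 < x := by linarith
  have hT0 : 0 < x := by linarith
  have hH0 : 0 < x ^ b := Real.rpow_pos_of_pos hT0 b
  have hH1 : 1 ≤ x ^ b := Real.one_le_rpow hT.le hb.le
  have hL : 0 < Real.log x := Real.log_pos hT
  have hw0 : 0 < hw c x := by unfold hw; positivity
  have hw1 : hw c x ≤ 1 := by unfold hw; rwa [div_le_one hL]
  set A0 : ℝ := C0 * x ^ κ with hA0d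
  have hA0 : 0 ≤ A0 := (abs_nonneg _).trans (hFb 0)
  have hFb' : ∀ t, F x t ≤ A0 := fun t => (le_abs_self _).trans (hFb t)
  set e : ℝ := K / x ^ b * hw c x with he
  have he0 : 0 ≤ e := by positivity
  set G : ℝ → ℝ := fun t => (wt g.h x (x ^ b) t + e) * F x t with hG
  have hGc : Continuous G := ((wt_cont g x _).add continuous_const).mul (hFc x)
  have hom0 : ∀ t, 0 ≤ wt g.h x (x ^ b) t := fun t => hg0 _
  have hG0 : ∀ t, 0 ≤ G t := fun t => mul_nonneg (add_nonneg (hom0 t) he0) (hF0 x t)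
  set A : ZS → Set ℝ := fun ρ => Ioc ((ρ : ℂ).im - hw c x) ((ρ : ℂ).im + hw c x) with hA
  -- one window
  have hone : ∀ ρ ∈ ZJ x (x ^ b), wt g.h x (x ^ b) (ρ : ℂ).im *
      (∫ t in ((ρ : ℂ).im - hw c x)..((ρ : ℂ).im + hw c x), F x t) ≤ ∫ t in A ρ, G t := by
    intro ρ _
    rw [intervalIntegral.integral_of_le (by linarith), ← integral_const_mul]
    apply setIntegral_mono_on
    · exact ((continuous_const.mul (hFc x)).integrableOn_Icc).mono_set Ioc_subset_Icc_self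
    · exact (hGc.integrableOn_Icc).mono_set Ioc_subset_Icc_self
    · exact measurableSet_Ioc
    · intro t ht
      apply mul_le_mul_of_nonneg_right _ (hF0 x t)
      have h1 := hKd x (x ^ b) hH0 (ρ : ℂ).im t
      have h2 : |t - (ρ : ℂ).im| ≤ hw c x := by
        rw [abs_le]
        constructor <;> linarith [ht.1, ht.2]
      have h3 : K / x ^ b * |t - (ρ : ℂ).im| ≤ e := by
        rw [he]
        exact mul_le_mul_of_nonneg_left h2 (by positivity)
      have h4 := le_abs_self (wt g.h x (x ^ b) (ρ : ℂ).im - wt g.h x (x ^ b) t)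
      linarith
  have hsub : (⋃ ρ ∈ ZJ x (x ^ b), A ρ) ⊆ Icc (x - 1) (x + x ^ b + 1) := by
    intro t ht
    rw [mem_iUnion₂] at ht
    obtain ⟨ρ, hρ, h1, h2⟩ := ht
    obtain ⟨h3, h4⟩ := (mem_ZJ hT0.le hH0.le).mp hρ
    constructor <;> linarith
  have hdisj : Set.Pairwise (↑(ZJ x (x ^ b))) (Function.onFun Disjoint A) := by
    intro ρ hρ ρ' hρ' hne
    rw [Function.onFun, Set.disjoint_left]
    intro t h1 h2
    have h3 := loc_sep hc hT hH0.le hN (Finset.mem_coe.1 hρ) (Ne.symm hne)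
    have h4 : |(ρ : ℂ).im - (ρ' : ℂ).im| ≤ 2 * hw c x := by
      rw [abs_le]
      constructor <;> linarith [h1.1, h1.2, h2.1, h2.2]
    linarith
  have hsum : ∑ ρ ∈ ZJ x (x ^ b), ∫ t in A ρ, G t = ∫ t in ⋃ ρ ∈ ZJ x (x ^ b), A ρ, G t := by
    rw [integral_biUnion_finset (ZJ x (x ^ b)) (fun ρ _ => measurableSet_Ioc) hdisj]
    intro ρ _
    exact (hGc.integrableOn_Icc).mono_set Ioc_subset_Icc_self
  have hle1 : ∑ ρ ∈ ZJ x (x ^ b), wt g.h x (x ^ b) (ρ : ℂ).im *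
      (∫ t in ((ρ : ℂ).im - hw c x)..((ρ : ℂ).im + hw c x), F x t) ≤ ∫ t in Icc (x - 1) (x + x ^ b + 1), G t := by
    refine le_trans (Finset.sum_le_sum hone) ?_
    rw [hsum]
    apply setIntegral_mono_set hGc.integrableOn_Icc
    · exact Eventually.of_forall hG0
    · exact hsub.eventuallyLE
  have hint1 : IntegrableOn (fun t => wt g.h x (x ^ b) t * F x t) (Icc (x - 1) (x + x ^ b + 1)) :=
    ((wt_cont g x _).mul (hFc x)).integrableOn_Icc
  have hint2 : IntegrableOn (fun t => e * F x t) (Icc (x - 1) (x + x ^ b + 1)) :=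
    (continuous_const.mul (hFc x)).integrableOn_Icc
  have hsplit : ∫ t in Icc (x - 1) (x + x ^ b + 1), G t =
      (∫ t in Icc (x - 1) (x + x ^ b + 1), wt g.h x (x ^ b) t * F x t) + ∫ t in Icc (x - 1) (x + x ^ b + 1), e * F x t := by
    rw [← integral_add hint1 hint2]
    congr 1
    funext t
    simp only [hG]
    ring
  have hfull : ∫ t in Icc (x - 1) (x + x ^ b + 1), wt g.h x (x ^ b) t * F x t = ∫ t, wt g.h x (x ^ b) t * F x t := by
    apply setIntegral_eq_integral_of_forall_compl_eq_zero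
    intro t ht
    by_contra hne
    have h1 : wt g.h x (x ^ b) t ≠ 0 := fun h => hne (by rw [h, zero_mul])
    have h2 := wt_supp g hg hH0 t h1
    exact ht ⟨by linarith [h2.1], by linarith [h2.2]⟩
  have hvol : (volume : Measure ℝ).real (Icc (x - 1) (x + x ^ b + 1)) = x ^ b + 2 := by
    rw [Real.volume_real_Icc_of_le (by linarith)]
    ring
  have herr : ∫ t in Icc (x - 1) (x + x ^ b + 1), e * F x t ≤ ε * x ^ b := by
    have h1 : ∫ t in Icc (x - 1) (x + x ^ b + 1), e * F x t ≤ ∫ t in Icc (x - 1) (x + x ^ b + 1), e * A0 := by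
      apply setIntegral_mono_on hint2 continuous_const.integrableOn_Icc measurableSet_Icc
      intro t _
      exact mul_le_mul_of_nonneg_left (hFb' t) he0
    rw [setIntegral_const, hvol, smul_eq_mul] at h1
    refine le_trans h1 (le_trans ?_ hp)
    have h2 : (x ^ b + 2) / x ^ b ≤ 3 := by
      rw [div_le_iff₀ hH0]; linarith
    have h3 : (x ^ b + 2) * (e * A0) = ((x ^ b + 2) / x ^ b) * hw c x * (K * A0) := by
      rw [he]; field_simp
    rw [h3]
    have h4 : (x ^ b + 2) / x ^ b * hw c x ≤ 3 * 1 :=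
      mul_le_mul h2 hw1 hw0.le (by norm_num)
    have h5 : 0 ≤ (K : ℝ) * A0 := by positivity
    have h6 := mul_le_mul_of_nonneg_right h4 h5
    calc (x ^ b + 2) / x ^ b * hw c x * (K * A0) ≤ 3 * 1 * (K * A0) := h6
      _ = 3 * K * C0 * x ^ κ := by rw [hA0d]; ring
  calc _ ≤ _ := hle1
    _ = _ := hsplit
    _ ≤ _ := by rw [hfull]; linarith

/-- the main inequality of the zero side when no zero of the short interval is close -/
theorem loc_main {c : ℝ} (hc : 0 < c) (g f : TF) (hg : g.th = 1 / 4)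
    (hg0 : ∀ x, 0 ≤ g.h x) {s b : ℝ} (hs : 1 ≤ s) (hs2 : s ≤ 2) (hb : 0 < b) (hb1 : b ≤ 1)
    (F : ℝ → ℝ → ℝ) (hFc : ∀ T, Continuous (F T)) (hF0 : ∀ T t, 0 ≤ F T t)
    (hFb : ∃ κ C0 : ℝ, κ < b ∧ ∀ᶠ T : ℝ in atTop, ∀ t, |F T t| ≤ C0 * T ^ κ)
    (hwin : ∀ᶠ T : ℝ in atTop, ∀ γ : ℝ, ∫ t in (γ - hw c T)..(γ + hw c T), F T t = ∫ t, F T t * krs f.h s T (t - γ))
    {ε : ℝ} (hε : 0 < ε) : ∀ᶠ x : ℝ in atTop, NCl c x (x ^ b) →
      f.h 0 * (∫ t, wt g.h x (x ^ b) t * F x t) - (∫ t, wt g.h x (x ^ b) t * (F x t * pss f.h s x t)) ≤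
        (1 + ε) * (∫ t, wt g.h x (x ^ b) t * F x t) + ε * x ^ b := by
  filter_upwards [transfer_loc hc g f hg hg0 hs hs2 hb hb1 F hFc hF0 hε,
    swap_loc hc g f hg hs hb F hFc hFb (half_pos hε), hwin,
    upper_loc hc g hg hg0 hb F hFc hF0 hFb (half_pos hε), eventually_gt_atTop 1] with x h1 h2 h3 h4 hT hN
  have hT0 : 0 < x := by linarith
  have hH0 : 0 < x ^ b := Real.rpow_pos_of_pos hT0 b
  have h1 := h1 hN
  have h2 := h2 hN
  have h4 := h4 hN
  have h5 : (∑ ρ ∈ ZJ x (x ^ b), wt g.h x (x ^ b) (ρ : ℂ).im *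
      (∫ t in ((ρ : ℂ).im - hw c x)..((ρ : ℂ).im + hw c x), F x t)) =
      ∑ ρ ∈ ZJ x (x ^ b), wt g.h x (x ^ b) (ρ : ℂ).im * ∫ t, F x t * krs f.h s x (t - (ρ : ℂ).im) := by
    refine Finset.sum_congr rfl fun ρ _ => ?_
    rw [h3]
  have i1 : Integrable (fun t => wt g.h x (x ^ b) t * F x t) := wt_mul_integrable g hg hH0 (hFc x)
  have i2 : Integrable (fun t => wt g.h x (x ^ b) t * (F x t * pss f.h s x t)) :=
    wt_mul_integrable g hg hH0 ((hFc x).mul (pss_cont f.h s x))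
  have h6 : ∫ t, wt g.h x (x ^ b) t * (F x t * (f.h 0 - pss f.h s x t)) =
      f.h 0 * (∫ t, wt g.h x (x ^ b) t * F x t) - ∫ t, wt g.h x (x ^ b) t * (F x t * pss f.h s x t) := by
    rw [← integral_const_mul, ← integral_sub (i1.const_mul _) i2]
    refine integral_congr_ae (Eventually.of_forall fun t => ?_)
    simp only
    ring
  rw [h5] at h4
  rw [h6] at h1
  have e1 := abs_le.mp h1
  have e2 := abs_le.mp h2
  linarith [e1.1, e1.2, e2.1, e2.2]

end Pool.Agent.Helper69.SM
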