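import Pool.Agent.Helper4.PPZ.Iso
import Pool.Agent.Helper4.SH.Scale

/-!
# PP-Z, part 2: the close zeros contribute little outside a small set
-/

open MeasureTheory Set Filter Topology
open Pool.Agent.Helper57.Zeta Pool.Agent.Helper57.PC Pool.Agent.Helper57.LH Pool.Agent.Helper78.SG
open Pool.Agent.Helper4.SH
open scoped ContDiff Interval

namespace Pool.Agent.Helper69.PP

theorem Gsc_cont (c : ℝ) (f : TF) (s T : ℝ) : Continuous (fun t => Gsc c f.h s T t) := by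
  unfold Gsc kzs
  refine continuous_finsetSum _ fun ρ _ => continuous_const.mul ?_
  exact (continuous_const.mul (kz_cont f _ _)).abs

theorem Zsc_cont (c : ℝ) (f : TF) (s T : ℝ) : Continuous (fun t => Zsc c f.h s T t) := by
  unfold Zsc krs
  refine continuous_finsetSum _ fun ρ _ => continuous_const.mul ?_
  exact (ker_cont f 0).comp (by fun_prop)

theorem weak_c (c : ℝ) (f : TF) {s η ε : ℝ} (hs : 1 ≤ s) (hs2 : s ≤ 2) (hη : 0 < η) (hε : 0 < ε) : ∃ p : ℝ, 0 < p ∧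
    ∀ᶠ T : ℝ in atTop, ∑ ρ ∈ CZc c T, mx ρ ≤ p * (T * Real.log T) →
      volume {t : ℝ | η < Gsc c f.h s T t} ≤ ENNReal.ofReal (ε * T) := by
  obtain ⟨κ, C, hκ, hC, hexp⟩ := exp_moment
  obtain ⟨r, hr⟩ : ∃ r, r = min (κ / 4) 1 := ⟨_, rfl⟩
  have hs0 : 0 < s := by linarith
  have hr0 : 0 < r := by
    rw [hr]
    exact lt_min (by linarith) one_pos
  have hr1 : r ≤ 1 := by
    rw [hr]
    exact min_le_right _ _
  have hrκ : 4 * r ≤ κ := by
    have : r ≤ κ / 4 := by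
      rw [hr]
      exact min_le_left _ _
    linarith
  obtain ⟨C', hC', hint⟩ := int_rpow f hr0 hr1
  have hηr : 0 < (η / s) ^ r := Real.rpow_pos_of_pos (by positivity) r
  refine ⟨(ε * (η / s) ^ r / C') ^ 2 / C, by positivity, ?_⟩
  filter_upwards [hexp, eventually_ge_atTop (Real.exp 1)] with T hT hTe hsum
  have hF : CZc c T ⊆ ZT T := fun ρ hρ => (mem_CZc.mp hρ).1
  have hT0 : 0 < T := lt_of_lt_of_le (Real.exp_pos 1) hTe
  have hL : 1 ≤ Real.log T := by
    rw [Real.le_log_iff_exp_le hT0]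
    exact hTe
  have hL0 : 0 < Real.log T := by linarith
  have hsL : 1 ≤ s * Real.log T := by nlinarith
  obtain ⟨hi, hb⟩ := hint (s * Real.log T) hsL (CZc c T)
  have hTL : 0 < T * Real.log T := by positivity
  have hcs := weak_cs (CZc c T) (fun ρ => mx ρ)
    (fun ρ => |s * Real.log T * ((ρ : ℂ).re - 1 / 2)|) (fun ρ => mx_nonneg ρ) r
  have hs2' : ∑ ρ ∈ CZc c T, mx ρ * Real.exp (2 * r * |s * Real.log T * ((ρ : ℂ).re - 1 / 2)|) ≤
      C * (T * Real.log T) := by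
    calc ∑ ρ ∈ CZc c T, mx ρ * Real.exp (2 * r * |s * Real.log T * ((ρ : ℂ).re - 1 / 2)|)
        ≤ ∑ ρ ∈ CZc c T, mx ρ * Real.exp (κ * |Real.log T * ((ρ : ℂ).re - 1 / 2)|) := by
          refine Finset.sum_le_sum fun ρ _ => ?_
          refine mul_le_mul_of_nonneg_left ?_ (mx_nonneg _)
          refine Real.exp_le_exp.2 ?_
          rw [mul_assoc s, abs_mul, abs_of_pos hs0, ← mul_assoc]
          refine mul_le_mul_of_nonneg_right ?_ (abs_nonneg _)
          nlinarith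
      _ ≤ ∑ ρ ∈ ZT T, mx ρ * Real.exp (κ * |Real.log T * ((ρ : ℂ).re - 1 / 2)|) :=
          Finset.sum_le_sum_of_subset_of_nonneg hF
            (fun ρ _ _ => mul_nonneg (mx_nonneg _) (Real.exp_pos _).le)
      _ ≤ C * (T * Real.log T) := hT
  have hmain : ∑ ρ ∈ CZc c T, mx ρ * Real.exp (r * |s * Real.log T * ((ρ : ℂ).re - 1 / 2)|) ≤
      ε * (η / s) ^ r / C' * (T * Real.log T) := by
    refine le_trans hcs ?_
    calc Real.sqrt (∑ ρ ∈ CZc c T, mx ρ) *
          Real.sqrt (∑ ρ ∈ CZc c T, mx ρ * Real.exp (2 * r * |s * Real.log T * ((ρ : ℂ).re - 1 / 2)|))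
        ≤ Real.sqrt ((ε * (η / s) ^ r / C') ^ 2 / C * (T * Real.log T)) *
          Real.sqrt (C * (T * Real.log T)) := by
          apply mul_le_mul (Real.sqrt_le_sqrt hsum) (Real.sqrt_le_sqrt hs2') (Real.sqrt_nonneg _)
            (Real.sqrt_nonneg _)
      _ = Real.sqrt ((ε * (η / s) ^ r / C' * (T * Real.log T)) ^ 2) := by
          rw [← Real.sqrt_mul (by positivity)]
          congr 1
          field_simp
      _ = ε * (η / s) ^ r / C' * (T * Real.log T) := Real.sqrt_sq (by positivity)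
  have hA : ∫ t, (∑ ρ ∈ CZc c T, mx ρ * |kz f.h (s * Real.log T) t ρ|) ^ r ≤ ε * (η / s) ^ r * T := by
    refine le_trans hb ?_
    calc C' / (s * Real.log T) * ∑ ρ ∈ CZc c T, mx ρ * Real.exp (r * |s * Real.log T * ((ρ : ℂ).re - 1 / 2)|)
        ≤ C' / (s * Real.log T) * (ε * (η / s) ^ r / C' * (T * Real.log T)) :=
          mul_le_mul_of_nonneg_left hmain (by positivity)
      _ = ε * (η / s) ^ r * T / s := by
          field_simp
      _ ≤ ε * (η / s) ^ r * T := div_le_self (by positivity) hs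
  have hfin := weak_cheb (fun t => ∑ ρ ∈ CZc c T, mx ρ * |kz f.h (s * Real.log T) t ρ|)
    (fun t => Finset.sum_nonneg fun ρ _ => mul_nonneg (mx_nonneg _) (abs_nonneg _)) hr0
    (by positivity : 0 < η / s) hi hA
  have e : ε * (η / s) ^ r * T / (η / s) ^ r = ε * T := by
    field_simp
  rw [e] at hfin
  refine le_trans (measure_mono ?_) hfin
  intro t ht
  simp only [Set.mem_ofPred_eq] at ht ⊢
  rw [div_lt_iff₀ hs0]
  refine lt_of_lt_of_eq ht ?_
  unfold Gsc kzs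
  rw [Finset.sum_mul]
  refine Finset.sum_congr rfl fun ρ _ => ?_
  rw [abs_mul, abs_of_pos hs0]
  ring

theorem dev_c {c : ℝ} (hc : 0 < c) (f : TF) {s ε : ℝ} (hs : 1 ≤ s) (hs2 : s ≤ 2) (hε : 0 < ε) : ∀ᶠ T : ℝ in atTop,
    ∀ t ∈ Icc (1 / 8 * T) (7 / 8 * T), |Xs f.h s T t - Zsc c f.h s T t| ≤ Gsc c f.h s T t + ε := by
  classical
  filter_upwards [tail_s f hs hs2 (δ := 1 / 8) (by norm_num) (by norm_num) hε, eventually_gt_atTop 1] with T hT hT1
  intro t ht
  have htail := hT t ⟨ht.1, by linarith [ht.2]⟩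
  have hsl := explicit_s f hs hT1 t
  have h1 : |Xs f.h s T t - ∑ ρ ∈ ZT T, mx ρ * kzs f.h s T t ρ| ≤ ε := by
    have hlim : Tendsto (fun F : Finset ZS => |(∑ ρ ∈ F, mx ρ * kzs f.h s T t ρ) - ∑ ρ ∈ ZT T, mx ρ * kzs f.h s T t ρ|)
        atTop (𝓝 |Xs f.h s T t - ∑ ρ ∈ ZT T, mx ρ * kzs f.h s T t ρ|) :=
      (hsl.sub_const _).abs
    refine le_of_tendsto hlim ?_
    filter_upwards [eventually_ge_atTop (ZT T)] with F hF
    rw [← Finset.sum_sdiff hF, add_sub_cancel_right]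
    calc |∑ ρ ∈ F \ ZT T, mx ρ * kzs f.h s T t ρ| ≤ ∑ ρ ∈ F \ ZT T, |mx ρ * kzs f.h s T t ρ| := Finset.abs_sum_le_sum_abs _ _
      _ = ∑ ρ ∈ F \ ZT T, mx ρ * |kzs f.h s T t ρ| := by
          refine Finset.sum_congr rfl fun ρ _ => ?_
          rw [abs_mul, abs_of_nonneg (mx_nonneg _)]
      _ ≤ ε := htail _ (fun ρ hρ => (Finset.mem_sdiff.mp hρ).2)
  have h2 : ∑ ρ ∈ ZT T, mx ρ * kzs f.h s T t ρ =
      (∑ ρ ∈ CZc c T, mx ρ * kzs f.h s T t ρ) + Zsc c f.h s T t := by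
    unfold CZc Zsc IZc
    rw [← Finset.sum_filter_add_sum_filter_not (ZT T) (CloseC c T)]
    congr 1
    refine Finset.sum_congr rfl fun ρ hρ => ?_
    have h3 := iso_props_c hc (T := T) (ρ := ρ) (by
      rw [Finset.mem_filter] at hρ
      exact hρ.2)
    obtain ⟨h4, h5, _⟩ := h3
    rw [h5, one_mul]
    unfold kzs krs kz
    rw [h4, sub_self, mul_zero]
  have h3 : |∑ ρ ∈ CZc c T, mx ρ * kzs f.h s T t ρ| ≤ Gsc c f.h s T t := by
    refine (Finset.abs_sum_le_sum_abs _ _).trans (le_of_eq ?_)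
    unfold Gsc
    refine Finset.sum_congr rfl fun ρ _ => ?_
    rw [abs_mul, abs_of_nonneg (mx_nonneg _)]
  rw [h2] at h1
  have h4 := abs_le.mp h1
  have h5 := abs_le.mp h3
  rw [abs_le]
  constructor <;> linarith [h4.1, h4.2, h5.1, h5.2]


end Pool.Agent.Helper69.PP
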